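import Pool.Agent.Helper55.NK.Defs
set_option autoImplicit false

/-!
Project NK (MP_9385b8_an): cardinalities of generated subgroups.
-/

namespace Pool.Agent.Helper55.NK

/-- The sum of the elements `± F i` coded by a list. -/
private def Card_sum {G ι : Type} [AddCommGroup G] (F : ι → G) (l : List (ι × Bool)) : G :=
  (l.map fun p => if p.2 then F p.1 else -F p.1).sum

private theorem Card_cl {G ι : Type} [AddCommGroup G] (F : ι → G) :
    ((AddSubgroup.closure (Set.range F) : AddSubgroup G) : Set G) ⊆ Set.range (Card_sum F) := by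
  intro x hx
  have hx' : x ∈ AddSubgroup.closure (Set.range F) := hx
  induction hx' using AddSubgroup.closure_induction with
  | mem y hy =>
    obtain ⟨i, rfl⟩ := hy
    exact ⟨[(i, true)], by simp [Card_sum]⟩
  | zero => exact ⟨[], by simp [Card_sum]⟩
  | add y z hy hz h1 h2 =>
    obtain ⟨l, rfl⟩ := h1 hy
    obtain ⟨m, rfl⟩ := h2 hz
    exact ⟨l ++ m, by simp [Card_sum]⟩
  | neg y hy h1 =>
    obtain ⟨l, rfl⟩ := h1 hy
    refine ⟨l.map fun p => (p.1, !p.2), ?_⟩
    clear h1 hy hx
    induction l with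
    | nil => simp [Card_sum]
    | cons p l ih =>
      simp only [Card_sum, List.map_cons, List.sum_cons] at ih ⊢
      rw [ih, neg_add]
      congr 1
      obtain ⟨i, b⟩ := p
      cases b <;> simp

theorem mk_closure_le {G ι : Type} [AddCommGroup G] (κ : Cardinal.{0}) (hκ : Cardinal.aleph0 ≤ κ)
    (hι : Cardinal.mk ι ≤ κ) (F : ι → G) :
    Cardinal.mk (AddSubgroup.closure (Set.range F)) ≤ κ := by
  have h1 : Cardinal.mk (AddSubgroup.closure (Set.range F)) ≤
      Cardinal.mk (Set.range (Card_sum F)) := Cardinal.mk_le_mk_of_subset (Card_cl F)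
  have h2 : Cardinal.mk (Set.range (Card_sum F)) ≤ Cardinal.mk (List (ι × Bool)) :=
    Cardinal.mk_range_le
  have h3 := Cardinal.mk_list_le_max (ι × Bool)
  have h4 : Cardinal.mk (ι × Bool) ≤ κ := by
    rw [Cardinal.mk_prod, Cardinal.lift_id, Cardinal.lift_id, ← Cardinal.mul_eq_self hκ]
    exact mul_le_mul' hι ((Cardinal.mk_le_aleph0 (α := Bool)).trans hκ)
  exact h1.trans (h2.trans (h3.trans (max_le hκ h4)))

end Pool.Agent.Helper55.NK
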