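import Pool.Agent.Helper55.NK.Defs
set_option autoImplicit false

/-!
Project NK (MP_9385b8_an), module Dens: the closed span of a set of cardinality at most `κ` has a dense
subset of cardinality at most `κ` (`κ` infinite).
-/

namespace Pool.Agent.Helper55.NK

/-- the rational combination coded by a list -/
private noncomputable def densComb {E : Type} [NormedAddCommGroup E] [NormedSpace ℝ E] (Y : Set E)
    (l : List (ℚ × Y)) : E :=
  (l.map (fun p => ((p.1 : ℚ) : ℝ) • (p.2 : E))).sum

private theorem densComb_append {E : Type} [NormedAddCommGroup E] [NormedSpace ℝ E] (Y : Set E)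
    (l m : List (ℚ × Y)) : densComb Y (l ++ m) = densComb Y l + densComb Y m := by
  simp [densComb]

private theorem densComb_smul {E : Type} [NormedAddCommGroup E] [NormedSpace ℝ E] (Y : Set E)
    (q : ℚ) (l : List (ℚ × Y)) :
    densComb Y (l.map (fun p => (q * p.1, p.2))) = (q : ℝ) • densComb Y l := by
  induction l with
  | nil => simp [densComb]
  | cons p l ih =>
    simp only [densComb, List.map_cons, List.sum_cons] at ih ⊢
    rw [ih, smul_add, smul_smul, Rat.cast_mul]

private theorem densComb_mem {E : Type} [NormedAddCommGroup E] [NormedSpace ℝ E] (Y : Set E)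
    (l : List (ℚ × Y)) : densComb Y l ∈ Submodule.span ℝ Y := by
  induction l with
  | nil => simp [densComb]
  | cons p l ih =>
    simp only [densComb, List.map_cons, List.sum_cons] at ih ⊢
    exact Submodule.add_mem _ (Submodule.smul_mem _ _ (Submodule.subset_span p.2.2)) ih

private theorem dens_card {E : Type} [NormedAddCommGroup E] [NormedSpace ℝ E] (κ : Cardinal.{0})
    (h0 : Cardinal.aleph0 ≤ κ) (Y : Set E) (hY : Cardinal.mk Y ≤ κ) :
    Cardinal.mk (Set.range (densComb Y)) ≤ κ := by
  refine Cardinal.mk_range_le.trans ?_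
  refine (Cardinal.mk_list_le_max _).trans (max_le h0 ?_)
  rw [Cardinal.mk_prod, Cardinal.lift_id, Cardinal.lift_id]
  exact (mul_le_mul' ((Cardinal.mk_le_aleph0 (α := ℚ)).trans h0) hY).trans
    (Cardinal.mul_eq_self h0).le

private theorem dens_span {E : Type} [NormedAddCommGroup E] [NormedSpace ℝ E] (Y : Set E) :
    ((Submodule.span ℝ Y : Submodule ℝ E) : Set E) ⊆ closure (Set.range (densComb Y)) := by
  intro x hx
  induction hx using Submodule.span_induction with
  | mem y hy =>
    refine subset_closure ⟨[(1, ⟨y, hy⟩)], ?_⟩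
    simp [densComb]
  | zero =>
    refine subset_closure ⟨[], ?_⟩
    simp [densComb]
  | add x y _ _ hx hy =>
    refine map_mem_closure₂ continuous_add hx hy ?_
    rintro _ ⟨l, rfl⟩ _ ⟨m, rfl⟩
    exact ⟨l ++ m, densComb_append Y l m⟩
  | smul r x _ hx =>
    have hr : r ∈ closure (Set.range ((↑) : ℚ → ℝ)) := Rat.denseRange_cast r
    refine map_mem_closure₂ continuous_smul hr hx ?_
    rintro _ ⟨q, rfl⟩ _ ⟨l, rfl⟩
    exact ⟨_, densComb_smul Y q l⟩

/-- module NK-Dens -/
theorem exists_dense {E : Type} [NormedAddCommGroup E] [NormedSpace ℝ E] (κ : Cardinal.{0})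
    (hκ : Cardinal.aleph0 ≤ κ) (Y : Set E) (hY : Cardinal.mk Y ≤ κ) :
    ∃ D : Set ((Submodule.span ℝ Y).topologicalClosure), Dense D ∧ Cardinal.mk D ≤ κ := by
  have hle : (Submodule.span ℝ Y) ≤ (Submodule.span ℝ Y).topologicalClosure :=
    Submodule.le_topologicalClosure _
  refine ⟨{z | (z : E) ∈ Set.range (densComb Y)}, ?_, ?_⟩
  · intro z
    rw [closure_subtype]
    have him : ((↑) : (Submodule.span ℝ Y).topologicalClosure → E) ''
        {z | (z : E) ∈ Set.range (densComb Y)} = Set.range (densComb Y) := by
      ext x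
      constructor
      · rintro ⟨w, hw, rfl⟩
        exact hw
      · rintro ⟨l, rfl⟩
        exact ⟨⟨densComb Y l, hle (densComb_mem Y l)⟩, ⟨l, rfl⟩, rfl⟩
    rw [him]
    have h1 : (z : E) ∈ closure ((Submodule.span ℝ Y : Submodule ℝ E) : Set E) := z.2
    have h2 := closure_mono (dens_span Y) h1
    rwa [closure_closure] at h2
  · refine le_trans ?_ (dens_card κ hκ Y hY)
    let F : {z : (Submodule.span ℝ Y).topologicalClosure // (z : E) ∈ Set.range (densComb Y)} →
        Set.range (densComb Y) := fun z => ⟨((z : (Submodule.span ℝ Y).topologicalClosure) : E), z.2⟩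
    have hF : Function.Injective F := by
      intro a b h
      apply Subtype.ext
      apply Subtype.ext
      have h' := congrArg (fun t : Set.range (densComb Y) => (t : E)) h
      exact h'
    exact Cardinal.mk_le_of_injective hF

end Pool.Agent.Helper55.NK
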