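import Pool.Agent.Helper55.NK.Defs
set_option autoImplicit false

namespace Pool.Agent.Helper55.NK

/-- `u` is bounded by `1` and supported in `[a, ∞)`. -/
def Sm {Ω : Type} [LinearOrder Ω] (a : Ω) (u : Ω → ℝ) : Prop :=
  (∀ v, |u v| ≤ 1) ∧ ∀ v, u v ≠ 0 → a ≤ v

/-- The critical value. -/
theorem exists_crit {Ω : Type} [LinearOrder Ω] (hΩ : IsOmega1 Ω) (Y : AddSubgroup (Ω → ℝ)) (hY : Rich Ω Y)
    (ν : Y → ℝ) (c C : ℝ) (hc : 0 < c) (hC : ∀ u : Y, (∀ v, |(u : Ω → ℝ) v| ≤ 1) → ν u ≤ C)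
    (hlow : ∀ (u : Y) (v : Ω), 1 ≤ |(u : Ω → ℝ) v| → c ≤ ν u) :
    ∃ (M : ℝ) (a : Ω), 0 < M ∧ (∀ u : Y, Sm a (u : Ω → ℝ) → ν u ≤ M) ∧
      ∀ t < M, ∀ b : Ω, ∃ u : Y, Sm b (u : Ω → ℝ) ∧ t < ν u := by
  classical
  let T : Set ℝ := {t | ∀ b : Ω, ∃ u : Y, Sm b (u : Ω → ℝ) ∧ t < ν u}
  obtain ⟨b0, -⟩ := hΩ.bdd ∅ Set.countable_empty
  have hT0 : c / 2 ∈ T := by
    intro b
    refine ⟨⟨_, hY.one b⟩, ⟨fun v => ?_, fun v hv => ?_⟩, ?_⟩
    · simp only
      split_ifs <;> simp
    · simp only at hv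
      by_contra hlt
      apply hv
      rw [if_neg]
      rintro rfl
      exact hlt le_rfl
    · have := hlow ⟨_, hY.one b⟩ b (by simp)
      linarith
  have hTC : ∀ t ∈ T, t ≤ C := by
    intro t ht
    obtain ⟨u, hu, h⟩ := ht b0
    exact h.le.trans (hC u hu.1)
  have hbdd : BddAbove T := ⟨C, hTC⟩
  have hM : 0 < sSup T := lt_of_lt_of_le (by linarith) (le_csSup hbdd hT0)
  have hno : ∀ n : ℕ, ∃ a : Ω, ∀ u : Y, Sm a (u : Ω → ℝ) → ν u ≤ sSup T + 1 / ((n : ℝ) + 1) := by
    intro n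
    by_contra hcon
    push Not at hcon
    have h1 : sSup T + 1 / ((n : ℝ) + 1) ∈ T := fun b => hcon b
    have h2 := le_csSup hbdd h1
    have h3 : 0 < 1 / ((n : ℝ) + 1) := by positivity
    linarith
  choose a ha using hno
  obtain ⟨A, hA⟩ := hΩ.bdd (Set.range a) (Set.countable_range a)
  refine ⟨sSup T, A, hM, fun u hu => ?_, fun t ht b => ?_⟩
  · refine le_of_forall_pos_lt_add fun ε hε => ?_
    obtain ⟨n, hn⟩ := exists_nat_one_div_lt hε
    have := ha n u ⟨hu.1, fun v hv => (hA (a n) ⟨n, rfl⟩).le.trans (hu.2 v hv)⟩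
    linarith
  · obtain ⟨s, hs, hts⟩ := exists_lt_of_lt_csSup ⟨_, hT0⟩ ht
    obtain ⟨u, hu, h⟩ := hs b
    exact ⟨u, hu, hts.trans h⟩

/-- module NM-Norm -/
theorem norm_part {Ω : Type} [LinearOrder Ω] (hΩ : IsOmega1 Ω) (Y : AddSubgroup (Ω → ℝ)) (hY : Rich Ω Y)
    (ν : Y → ℝ) (c C : ℝ) (hc : 0 < c) (hadd : ∀ u v, ν (u + v) ≤ ν u + ν v) (hneg : ∀ u, ν (-u) = ν u)
    (htwo : ∀ u, ν (u + u) = 2 * ν u) (hC : ∀ u : Y, (∀ v, |(u : Ω → ℝ) v| ≤ 1) → ν u ≤ C)
    (hlow : ∀ (u : Y) (v : Ω), 1 ≤ |(u : Ω → ℝ) v| → c ≤ ν u) :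
    ∃ (M : ℝ) (f : ℕ → Y), 0 < M ∧ (∀ n, ν (f n) = M) ∧ ∀ n m, n ≠ m → 2 * M ≤ ν (f n - f m) := by
  classical
  obtain ⟨M, a0, hM, hup, hlo⟩ := exists_crit hΩ Y hY ν c C hc hC hlow
  -- the near maximal vectors
  let G : ℕ → Set (Ω → ℝ) := fun k => {g | ∃ h : g ∈ Y, Sm a0 g ∧ M - 1 / ((k : ℝ) + 1) < ν ⟨g, h⟩}
  have hG1 : ∀ k, ∀ g ∈ G k, g ∈ Y := fun k g hg => hg.1
  have hG2 : ∀ k b, ∃ g ∈ G k, (∀ v, |g v| ≤ 1) ∧ ∀ v, g v ≠ 0 → b ≤ v := by
    intro k b
    have h3 : 0 < 1 / ((k : ℝ) + 1) := by positivity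
    obtain ⟨u, hu, h⟩ := hlo (M - 1 / ((k : ℝ) + 1)) (by linarith) (max a0 b)
    exact ⟨u, ⟨u.2, ⟨hu.1, fun v hv => (le_max_left _ _).trans (hu.2 v hv)⟩, h⟩, hu.1,
      fun v hv => (le_max_right _ _).trans (hu.2 v hv)⟩
  have hrich := hY.rich G hG1 hG2
  -- key fact
  have key : ∀ α : Ω, ∃ (y : Y) (β : Ω), α ≤ β ∧ (∀ v, |(y : Ω → ℝ) v| ≤ 1) ∧
      (∀ v, (y : Ω → ℝ) v ≠ 0 → α ≤ v ∧ v < β) ∧
      (a0 ≤ α → ∀ z : Y, Sm a0 (z : Ω → ℝ) → (∀ v, (z : Ω → ℝ) v ≠ 0 → (y : Ω → ℝ) v = 0) →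
        ν (y + z) = M ∧ 2 * M ≤ ν (y + y + z)) := by
    intro α
    obtain ⟨y, hyY, hy1, hyα, hyG⟩ := hrich α
    obtain ⟨β, hβ⟩ := hY.supp y hyY
    refine ⟨⟨y, hyY⟩, max α β, le_max_left _ _, hy1,
      fun v hv => ⟨hyα v hv, lt_of_lt_of_le (hβ v hv) (le_max_right _ _)⟩, fun hα z hz hdis => ?_⟩
    have hgk : ∀ k : ℕ, M - 2 * (1 / ((k : ℝ) + 1)) ≤ ν (⟨y, hyY⟩ + z) ∧
        2 * M - 4 * (1 / ((k : ℝ) + 1)) ≤ ν (⟨y, hyY⟩ + ⟨y, hyY⟩ + z) := by
      intro k
      obtain ⟨g, ⟨hgY, hgS, hgν⟩, hg1, hgy⟩ := hyG k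
      set y' : Y := ⟨y, hyY⟩ with hy'
      set g' : Y := ⟨g, hgY⟩ with hg'
      have e1 : ∀ v, (y' : Ω → ℝ) v = y v := fun v => rfl
      have e2 : ∀ v, (g' : Ω → ℝ) v = g v := fun v => rfl
      have hdis' : ∀ v, (z : Ω → ℝ) v ≠ 0 → y v = 0 := hdis
      have w1 : ν (g' + g' - y' - z) ≤ M := by
        apply hup
        constructor
        · intro v
          have e3 : ((g' + g' - y' - z : Y) : Ω → ℝ) v = g v + g v - y v - (z : Ω → ℝ) v := rfl
          rw [e3]
          by_cases hgv : g v = 0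
          · by_cases hzv : (z : Ω → ℝ) v = 0
            · rw [hgv, hzv]
              have := hy1 v
              simpa using this
            · rw [hgv, hdis' v hzv]
              have := hz.1 v
              simpa using this
          · have h1 := hgy v hgv
            have h2 : (z : Ω → ℝ) v = 0 := by
              by_contra hzv
              exact hgv (h1 ▸ hdis' v hzv)
            rw [h1, h2]
            have := hg1 v
            simpa using this
        · intro v hv
          have e3 : ((g' + g' - y' - z : Y) : Ω → ℝ) v = g v + g v - y v - (z : Ω → ℝ) v := rfl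
          by_contra hlt
          apply hv
          have h1 : g v = 0 := by
            by_contra h
            exact hlt (hgS.2 v h)
          have h2 : y v = 0 := by
            by_contra h
            exact hlt (hα.trans (hyα v h))
          have h3 : (z : Ω → ℝ) v = 0 := by
            by_contra h
            exact hlt (hz.2 v h)
          rw [e3, h1, h2, h3]
          simp
      have w2 : ν (g' + g' - y') ≤ M := by
        apply hup
        constructor
        · intro v
          have e3 : ((g' + g' - y' : Y) : Ω → ℝ) v = g v + g v - y v := rfl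
          rw [e3]
          by_cases hgv : g v = 0
          · rw [hgv]
            have := hy1 v
            simpa using this
          · have h1 := hgy v hgv
            rw [h1]
            have := hg1 v
            simpa using this
        · intro v hv
          have e3 : ((g' + g' - y' : Y) : Ω → ℝ) v = g v + g v - y v := rfl
          by_contra hlt
          apply hv
          have h1 : g v = 0 := by
            by_contra h
            exact hlt (hgS.2 v h)
          have h2 : y v = 0 := by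
            by_contra h
            exact hlt (hα.trans (hyα v h))
          rw [e3, h1, h2]
          simp
      have h2g := htwo g'
      have h4g := htwo (g' + g')
      constructor
      · have h1 := hadd (y' + z) (g' + g' - y' - z)
        have h2 : y' + z + (g' + g' - y' - z) = g' + g' := by abel
        rw [h2, h2g] at h1
        linarith
      · have h1 := hadd (y' + y' + z) ((g' + g' - y') + (g' + g' - y' - z))
        have h1' := hadd (g' + g' - y') (g' + g' - y' - z)
        have h2 : y' + y' + z + ((g' + g' - y') + (g' + g' - y' - z)) = (g' + g') + (g' + g') := by abel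
        rw [h2, h4g, h2g] at h1
        linarith
    constructor
    · apply le_antisymm
      · apply hup
        constructor
        · intro v
          have e3 : (((⟨y, hyY⟩ : Y) + z : Y) : Ω → ℝ) v = y v + (z : Ω → ℝ) v := rfl
          rw [e3]
          by_cases hzv : (z : Ω → ℝ) v = 0
          · rw [hzv]
            have := hy1 v
            simpa using this
          · have h1 : y v = 0 := hdis v hzv
            rw [h1]
            have := hz.1 v
            simpa using this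
        · intro v hv
          have e3 : (((⟨y, hyY⟩ : Y) + z : Y) : Ω → ℝ) v = y v + (z : Ω → ℝ) v := rfl
          by_contra hlt
          apply hv
          have h2 : y v = 0 := by
            by_contra h
            exact hlt (hα.trans (hyα v h))
          have h3 : (z : Ω → ℝ) v = 0 := by
            by_contra h
            exact hlt (hz.2 v h)
          rw [e3, h2, h3]
          simp
      · refine le_of_forall_pos_lt_add fun ε hε => ?_
        obtain ⟨n, hn⟩ := exists_nat_one_div_lt (show 0 < ε / 4 by linarith)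
        have := (hgk n).1
        linarith
    · refine le_of_forall_pos_lt_add fun ε hε => ?_
      obtain ⟨n, hn⟩ := exists_nat_one_div_lt (show 0 < ε / 8 by linarith)
      have := (hgk n).2
      linarith
  choose Yf β hβ hY1 hYs hYk using key
  -- the sequence
  let A : ℕ → Ω := fun n => β^[n] a0
  have hA0 : A 0 = a0 := rfl
  have hAs : ∀ n, A (n + 1) = β (A n) := fun n => Function.iterate_succ_apply' β n a0
  have hAmono : Monotone A := monotone_nat_of_le_succ fun n => by rw [hAs]; exact hβ _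
  have hAa : ∀ n, a0 ≤ A n := fun n => hA0 ▸ hAmono (Nat.zero_le n)
  let y : ℕ → Y := fun n => Yf (A n)
  have hy1 : ∀ n v, |(y n : Ω → ℝ) v| ≤ 1 := fun n v => hY1 (A n) v
  have hys : ∀ n v, (y n : Ω → ℝ) v ≠ 0 → A n ≤ v ∧ v < A (n + 1) := fun n v hv => by
    rw [hAs]; exact hYs (A n) v hv
  have hyk : ∀ n (z : Y), Sm a0 (z : Ω → ℝ) → (∀ v, (z : Ω → ℝ) v ≠ 0 → (y n : Ω → ℝ) v = 0) →
      ν (y n + z) = M ∧ 2 * M ≤ ν (y n + y n + z) := fun n => hYk (A n) (hAa n)
  -- partial sums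
  let z : ℕ → ℕ → Y := fun p k => ∑ i ∈ Finset.range k, y (p + i)
  have hz0 : ∀ p, z p 0 = 0 := fun p => Finset.sum_range_zero _
  have hzs : ∀ p k, z p (k + 1) = z p k + y (p + k) := fun p k => Finset.sum_range_succ _ _
  have hz : ∀ p k, (∀ v, |(z p k : Ω → ℝ) v| ≤ 1) ∧
      ∀ v, (z p k : Ω → ℝ) v ≠ 0 → A p ≤ v ∧ v < A (p + k) := by
    intro p k
    induction k with
    | zero =>
      rw [hz0]
      refine ⟨fun v => ?_, fun v hv => ?_⟩
      · simp
      · exact absurd rfl hv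
    | succ k ih =>
      have e : ∀ v, (z p (k + 1) : Ω → ℝ) v = (z p k : Ω → ℝ) v + (y (p + k) : Ω → ℝ) v := by
        intro v
        rw [hzs]; rfl
      refine ⟨fun v => ?_, fun v hv => ?_⟩
      · rw [e]
        by_cases hyv : (y (p + k) : Ω → ℝ) v = 0
        · rw [hyv, add_zero]; exact ih.1 v
        · have h1 : (z p k : Ω → ℝ) v = 0 := by
            by_contra h
            exact absurd ((ih.2 v h).2) (not_lt.2 (hys (p + k) v hyv).1)
          rw [h1, zero_add]; exact hy1 _ v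
      · rw [e] at hv
        by_cases hyv : (y (p + k) : Ω → ℝ) v = 0
        · rw [hyv, add_zero] at hv
          exact ⟨(ih.2 v hv).1, lt_of_lt_of_le (ih.2 v hv).2 (hAmono (by omega))⟩
        · have := hys (p + k) v hyv
          exact ⟨(hAmono (by omega)).trans this.1, this.2⟩
  have hmain : ∀ n k, 2 * M ≤ ν ((y n - z 0 n) - (y (n + 1 + k) - z 0 (n + 1 + k))) := by
    intro n k
    have h1 : z 0 (n + 1 + k) = z 0 n + y n + z (n + 1) k := by
      have e1 : z 0 (n + 1 + k) = z 0 (n + 1) + z (n + 1) k := by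
        simp only [z, zero_add]
        exact Finset.sum_range_add (fun i => y i) (n + 1) k
      rw [e1, hzs, zero_add]
    have h2 : (y n - z 0 n) - (y (n + 1 + k) - z 0 (n + 1 + k)) =
        y n + y n + (z (n + 1) k - y (n + 1 + k)) := by
      rw [h1]; abel
    rw [h2]
    have e : ∀ v, ((z (n + 1) k - y (n + 1 + k) : Y) : Ω → ℝ) v =
        (z (n + 1) k : Ω → ℝ) v - (y (n + 1 + k) : Ω → ℝ) v := fun v => rfl
    have hge : ∀ v, ((z (n + 1) k - y (n + 1 + k) : Y) : Ω → ℝ) v ≠ 0 → A (n + 1) ≤ v := by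
      intro v hv
      rw [e] at hv
      by_cases hyv : (y (n + 1 + k) : Ω → ℝ) v = 0
      · rw [hyv, sub_zero] at hv
        exact ((hz (n + 1) k).2 v hv).1
      · exact (hAmono (by omega)).trans (hys _ v hyv).1
    refine (hyk n _ ⟨fun v => ?_, fun v hv => (hAa _).trans (hge v hv)⟩ fun v hv => ?_).2
    · rw [e]
      by_cases hyv : (y (n + 1 + k) : Ω → ℝ) v = 0
      · rw [hyv, sub_zero]; exact (hz (n + 1) k).1 v
      · have h1 : (z (n + 1) k : Ω → ℝ) v = 0 := by
          by_contra h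
          exact absurd (((hz (n + 1) k).2 v h).2) (not_lt.2 (hys _ v hyv).1)
        rw [h1, zero_sub, abs_neg]; exact hy1 _ v
    · by_contra h
      exact absurd ((hys n v h).2) (not_lt.2 (hge v hv))
  refine ⟨M, fun n => y n - z 0 n, hM, fun n => ?_, fun n m hnm => ?_⟩
  · have e : ∀ v, ((-z 0 n : Y) : Ω → ℝ) v = -(z 0 n : Ω → ℝ) v := fun v => rfl
    have := (hyk n (-z 0 n) ⟨fun v => ?_, fun v hv => ?_⟩ fun v hv => ?_).1
    · simp only
      rw [sub_eq_add_neg]; exact this
    · rw [e, abs_neg]; exact (hz 0 n).1 v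
    · rw [e, neg_ne_zero] at hv
      exact (hA0 ▸ ((hz 0 n).2 v hv).1)
    · rw [e, neg_ne_zero] at hv
      by_contra h
      have h1 := ((hz 0 n).2 v hv).2
      rw [zero_add] at h1
      exact absurd h1 (not_lt.2 (hys n v h).1)
  · simp only
    rcases lt_or_gt_of_ne hnm with h | h
    · obtain ⟨k, rfl⟩ := Nat.exists_eq_add_of_lt h
      have := hmain n k
      rw [show n + k + 1 = n + 1 + k by omega]
      exact this
    · obtain ⟨k, rfl⟩ := Nat.exists_eq_add_of_lt h
      have := hmain m k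
      rw [show m + k + 1 = m + 1 + k by omega]
      rw [← hneg, neg_sub]
      exact this

end Pool.Agent.Helper55.NK
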