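import Pool.Agent.Helper55.NK.Defs
import Pool.Agent.Helper55.NK.Dens
import Pool.Agent.Helper55.NK.Norm
set_option autoImplicit false

/-!
Project NK, module Ban: the Banach space.  It is the closed span, in `(Ω →ᵇ ℝ) × (K →ᵇ ℝ)` (supremum norm), of
the pairs `(y, 0)`, `y ∈ Y`, and `(0, e k)`, `k ∈ K`, with the unit vectors `e k`.
-/

namespace Pool.Agent.Helper55.NK

open scoped BoundedContinuousFunction

set_option linter.unusedSectionVars false

/-- A map of `Y` into a normed space which is compatible with the supremum norm. -/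
structure BanLift {Ω : Type} (Y : AddSubgroup (Ω → ℝ)) (E : Type) [NormedAddCommGroup E]
    (L : Y → E) : Prop where
  add : ∀ x y, L (x + y) = L x + L y
  neg : ∀ x, L (-x) = -L x
  le_one : ∀ y : Y, (∀ v, |(y : Ω → ℝ) v| ≤ 1) → ‖L y‖ ≤ 1
  le_norm : ∀ (y : Y) (v : Ω), |(y : Ω → ℝ) v| ≤ ‖L y‖

section

variable {Ω : Type} [LinearOrder Ω] {E : Type} [NormedAddCommGroup E] [NormedSpace ℝ E]

/-- The closed subspace generated by a set. -/
noncomputable def banSpace (S : Set E) : Submodule ℝ E :=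
  (Submodule.span ℝ S).topologicalClosure

/-- The element of the space attached to a generator. -/
noncomputable def banEl (S : Set E) (u : E) (hu : u ∈ S) : banSpace S :=
  ⟨u, Submodule.le_topologicalClosure _ (Submodule.subset_span hu)⟩

theorem banEl_lift {Y : AddSubgroup (Ω → ℝ)} {L : Y → E} (hL : BanLift Y E L) (S : Set E)
    (hS : ∀ y, L y ∈ S) : BanLift Y (banSpace S) (fun y => banEl S (L y) (hS y)) where
  add x y := Subtype.ext (hL.add x y)
  neg x := Subtype.ext (hL.neg x)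
  le_one y h := hL.le_one y h
  le_norm y v := hL.le_norm y v

theorem BanLift.sub {Y : AddSubgroup (Ω → ℝ)} {L : Y → E} (hL : BanLift Y E L) (x y : Y) :
    L (x - y) = L x - L y := by
  rw [sub_eq_add_neg, hL.add, hL.neg, ← sub_eq_add_neg]

theorem ban_lower {K : Type} (e : K → E) (he : ∀ k l, k ≠ l → 1 ≤ ‖e k - e l‖) (D : Set E)
    (hD : Dense D) : Cardinal.mk K ≤ Cardinal.mk D := by
  classical
  have h1 : ∀ v, ∃ d ∈ D, dist (e v) d < 1 / 2 := fun v =>
    hD.exists_dist_lt _ (by norm_num)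
  choose d hd hdist using h1
  refine Cardinal.mk_le_of_injective (f := fun v => (⟨d v, hd v⟩ : D)) ?_
  intro v w hvw
  by_contra hne
  have h2 : d v = d w := congrArg Subtype.val hvw
  have h3 : dist (e v) (e w) < 1 := by
    have h4 := dist_triangle (e v) (d v) (e w)
    have h5 := hdist v
    have h6 := hdist w
    rw [← h2, dist_comm] at h6
    linarith
  rw [dist_eq_norm] at h3
  have h7 := he v w hne
  linarith

theorem ban_seq (hΩ : IsOmega1 Ω) (Y : AddSubgroup (Ω → ℝ)) (hY : Rich Ω Y) {L : Y → E}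
    (hL : BanLift Y E L) (Z : Type) [NormedAddCommGroup Z] [NormedSpace ℝ Z] (T : E ≃L[ℝ] Z) :
    ∃ f : ℕ → Z, (∀ n, ‖f n‖ = 1) ∧ ∀ n m, n ≠ m → 2 ≤ ‖f n - f m‖ := by
  have hsymm : 0 ≤ ‖(T.symm : Z →L[ℝ] E)‖ := norm_nonneg _
  obtain ⟨M, f, hM, hf, hsep⟩ := norm_part hΩ Y hY (fun u => ‖T (L u)‖)
    (1 / (‖(T.symm : Z →L[ℝ] E)‖ + 1)) ‖(T : E →L[ℝ] Z)‖
    (by positivity)
    (fun u v => by
      show ‖T (L (u + v))‖ ≤ _
      rw [hL.add, map_add]
      exact norm_add_le _ _)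
    (fun u => by
      show ‖T (L (-u))‖ = _
      rw [hL.neg, map_neg, norm_neg])
    (fun u => by
      show ‖T (L (u + u))‖ = 2 * ‖T (L u)‖
      rw [hL.add, ← two_smul ℝ, map_smul, norm_smul]
      norm_num)
    (fun u hu => by
      have h1 := (T : E →L[ℝ] Z).le_opNorm (L u)
      have h2 := hL.le_one u hu
      have h3 : 0 ≤ ‖(T : E →L[ℝ] Z)‖ := norm_nonneg _
      have h4 := mul_le_mul_of_nonneg_left h2 h3
      rw [mul_one] at h4
      exact h1.trans h4)
    (fun u v huv => by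
      show _ ≤ ‖T (L u)‖
      rw [div_le_iff₀ (by positivity)]
      have h1 := (T.symm : Z →L[ℝ] E).le_opNorm (T (L u))
      have h2 : (T.symm : Z →L[ℝ] E) (T (L u)) = L u := T.symm_apply_apply _
      rw [h2] at h1
      have h3 := hL.le_norm u v
      have h4 : 0 ≤ ‖T (L u)‖ := norm_nonneg _
      nlinarith)
  refine ⟨fun n => M⁻¹ • T (L (f n)), fun n => ?_, fun n m hnm => ?_⟩
  · rw [norm_smul, hf n, norm_inv, Real.norm_of_nonneg hM.le, inv_mul_cancel₀ hM.ne']
  · rw [← smul_sub, ← map_sub, ← hL.sub, norm_smul, norm_inv, Real.norm_of_nonneg hM.le]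
    have h1 := hsep n m hnm
    rw [inv_mul_eq_div, le_div_iff₀ hM]
    exact h1

theorem ban_main [CompleteSpace E] (hΩ : IsOmega1 Ω) (Y : AddSubgroup (Ω → ℝ)) (hY : Rich Ω Y)
    {K : Type} (hK : Cardinal.aleph 1 ≤ Cardinal.mk K) (hYK : Cardinal.mk Y ≤ Cardinal.mk K)
    {L : Y → E} (hL : BanLift Y E L) (e : K → E) (he : ∀ k l, k ≠ l → 1 ≤ ‖e k - e l‖) :
    Witness (Cardinal.mk K) := by
  have h0 : Cardinal.aleph0 ≤ Cardinal.mk K := (Cardinal.aleph0_le_aleph 1).trans hK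
  obtain ⟨S, hSdef⟩ : ∃ S : Set E, S = Set.range L ∪ Set.range e := ⟨_, rfl⟩
  have hSL : ∀ y, L y ∈ S := fun y => by
    rw [hSdef]
    exact Or.inl ⟨y, rfl⟩
  have hSe : ∀ k, e k ∈ S := fun k => by
    rw [hSdef]
    exact Or.inr ⟨k, rfl⟩
  have hScard : Cardinal.mk S ≤ Cardinal.mk K := by
    rw [hSdef]
    refine (Cardinal.mk_union_le _ _).trans ?_
    exact Cardinal.add_le_of_le h0 (Cardinal.mk_range_le.trans hYK) Cardinal.mk_range_le
  have hL' := banEl_lift hL S hSL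
  have hcomp : CompleteSpace (banSpace S) := Submodule.topologicalClosure.completeSpace _
  have hlow : ∀ D : Set (banSpace S), Dense D → Cardinal.mk K ≤ Cardinal.mk D := fun D hD =>
    ban_lower (fun k => banEl S (e k) (hSe k)) (fun k l hkl => he k l hkl) D hD
  refine ⟨banSpace S, inferInstance, inferInstance, hcomp,
    ⟨?_, hlow⟩, fun Z _ _ T => ban_seq hΩ Y hY hL' Z T⟩
  obtain ⟨D, hD, hDc⟩ := exists_dense (Cardinal.mk K) h0 S hScard
  exact ⟨D, hD, le_antisymm hDc (hlow D hD)⟩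

end

/-- module NK-Ban -/
theorem banach_part {Ω : Type} [LinearOrder Ω] (hΩ : IsOmega1 Ω) (Y : AddSubgroup (Ω → ℝ)) (hY : Rich Ω Y)
    (K : Type) (hK : Cardinal.aleph 1 ≤ Cardinal.mk K) (hYK : Cardinal.mk Y ≤ Cardinal.mk K) :
    Witness (Cardinal.mk K) := by
  classical
  let _ : TopologicalSpace Ω := ⊥
  have _ : DiscreteTopology Ω := ⟨rfl⟩
  let _ : TopologicalSpace K := ⊥
  have _ : DiscreteTopology K := ⟨rfl⟩
  let L₀ : Y → (Ω →ᵇ ℝ) := fun y =>
    BoundedContinuousFunction.ofNormedAddCommGroupDiscrete (y : Ω → ℝ) (hY.bd y y.2).choose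
      (fun v => by
        rw [Real.norm_eq_abs]
        exact (hY.bd y y.2).choose_spec v)
  let e₀ : K → (K →ᵇ ℝ) := fun k =>
    BoundedContinuousFunction.ofNormedAddCommGroupDiscrete (fun l => if l = k then (1 : ℝ) else 0) 1
      (fun v => by
        rw [Real.norm_eq_abs]
        split_ifs <;> norm_num)
  have hnorm : ∀ y, ‖((L₀ y, 0) : (Ω →ᵇ ℝ) × (K →ᵇ ℝ))‖ = ‖L₀ y‖ := fun y => by
    rw [Prod.norm_mk, norm_zero, max_eq_left (norm_nonneg _)]
  have hL : BanLift Y ((Ω →ᵇ ℝ) × (K →ᵇ ℝ)) (fun y => (L₀ y, 0)) :=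
    { add := fun x y => by
        rw [Prod.mk_add_mk, add_zero]
        congr 1
      neg := fun x => by
        rw [Prod.neg_mk, neg_zero]
        congr 1
      le_one := fun y h => by
        rw [hnorm, BoundedContinuousFunction.norm_le zero_le_one]
        intro v
        rw [Real.norm_eq_abs]
        exact h v
      le_norm := fun y v => by
        rw [hnorm]
        have := (L₀ y).norm_coe_le_norm v
        rwa [Real.norm_eq_abs] at this }
  refine ban_main hΩ Y hY hK hYK hL (fun k => (0, e₀ k)) ?_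
  intro k l hkl
  have h1 : ((0, e₀ k) : (Ω →ᵇ ℝ) × (K →ᵇ ℝ)) - (0, e₀ l) = (0, e₀ k - e₀ l) := by
    rw [Prod.mk_sub_mk, sub_zero]
  have h2 : (e₀ k - e₀ l) k = 1 := by
    show (if k = k then (1 : ℝ) else 0) - (if k = l then (1 : ℝ) else 0) = 1
    rw [if_pos rfl, if_neg hkl, sub_zero]
  have h3 := (e₀ k - e₀ l).norm_coe_le_norm k
  rw [h2, norm_one] at h3
  rw [h1]
  exact h3.trans (le_max_right _ _)

end Pool.Agent.Helper55.NK
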