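import Pool.Agent.Helper55.NK.Defs

/-!
Project NK: a copy of the ordinal `ω₁` in `Type`.
-/

set_option autoImplicit false

namespace Pool.Agent.Helper55.NK

/-- module NK-Om -/
theorem exists_omega1 : ∃ (Ω : Type) (_ : LinearOrder Ω), IsOmega1 Ω := by
  let Ω : Type := (Cardinal.aleph 1).ord.ToType
  have hcard : Cardinal.mk Ω = Cardinal.aleph 1 := Cardinal.mk_ord_toType _
  have hiio : ∀ a : Ω, (Set.Iio a).Countable := fun a =>
    (Cardinal.countable_iff_lt_aleph_one _).2 (Cardinal.mk_Iio_toType_ord_lt a)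
  refine ⟨Ω, inferInstance, wellFounded_lt, fun A hA => ?_, hiio, hcard⟩
  by_contra hcon
  push Not at hcon
  have h1 : (⋃ a ∈ A, Set.Iic a).Countable := hA.biUnion fun a _ => by
    have h2 : Set.Iic a = insert a (Set.Iio a) := by
      ext x
      rw [Set.mem_Iic, Set.mem_insert_iff, Set.mem_Iio, le_iff_eq_or_lt]
    rw [h2]
    exact (hiio a).insert a
  have h3 : (⋃ a ∈ A, Set.Iic a) = (Set.univ : Set Ω) := by
    ext x
    obtain ⟨a, ha, h⟩ := hcon x
    simp only [Set.mem_iUnion, Set.mem_univ, iff_true]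
    exact ⟨a, ha, h⟩
  rw [h3, Cardinal.countable_iff_lt_aleph_one, Cardinal.mk_univ, hcard] at h1
  exact lt_irrefl _ h1

/-- module NK-Cls -/
theorem closing {Ω : Type} [LinearOrder Ω] (hΩ : IsOmega1 Ω) (h : Ω → Ω) (α : Ω) :
    ∃ γ, α < γ ∧ ∀ β < γ, h β < γ := by
  have h1 : ∀ x : Ω, ∃ b, x < b ∧ ∀ β ≤ x, h β < b := by
    intro x
    have hc : (Set.Iic x).Countable := by
      rw [← Set.Iio_insert]
      exact (hΩ.iio x).insert x
    obtain ⟨b, hb⟩ := hΩ.bdd (insert x (h '' Set.Iic x)) ((hc.image h).insert x)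
    exact ⟨b, hb x (Set.mem_insert _ _), fun β hβ =>
      hb (h β) (Set.mem_insert_of_mem _ ⟨β, hβ, rfl⟩)⟩
  choose g hg1 hg2 using h1
  set s : ℕ → Ω := fun n => g^[n] α with hs
  have hstep : ∀ n, s (n + 1) = g (s n) := fun n => Function.iterate_succ_apply' g n α
  obtain ⟨b, hb⟩ := hΩ.bdd (Set.range s) (Set.countable_range s)
  set B : Set Ω := {b | ∀ n, s n < b} with hB
  have hne : B.Nonempty := ⟨b, fun n => hb _ ⟨n, rfl⟩⟩
  have hmem : ∀ n, s n < hΩ.wf.min B hne := hΩ.wf.min_mem B hne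
  refine ⟨hΩ.wf.min B hne, hmem 0, fun β hβ => ?_⟩
  have h2 : β ∉ B := fun hβB => hΩ.wf.not_lt_min B hβB hβ
  have h3 : ∃ n, ¬ s n < β := by
    by_contra hcon
    exact h2 fun n => not_not.1 fun hn => hcon ⟨n, hn⟩
  obtain ⟨n, hn⟩ := h3
  have h4 := hg2 (s n) β (not_lt.1 hn)
  rw [← hstep] at h4
  exact h4.trans (hmem (n + 1))

end Pool.Agent.Helper55.NK
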