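import Pool.Agent.Helper55.NK.Defs
set_option autoImplicit false

/-!
Project NK, module Gen: a play in a nonmeagre set meets countably many open dense sets.
-/

namespace Pool.Agent.Helper55.NK

theorem Gen_part_congr {Ω K : Type} [LinearOrder Ω] (e : K → Ω → ℝ) (α : Ω) {c c' : ℕ → K} (n : ℕ)
    (h : ∀ i < n, c' i = c i) : part e α c' n = part e α c n := by
  induction n with
  | zero => rfl
  | succ n ih =>
    have h1 := ih fun i hi => h i (Nat.lt_succ_of_lt hi)
    have h2 := h n (Nat.lt_succ_self n)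
    simp only [part]
    rw [h1, h2]

theorem Gen_ok_congr {Ω K : Type} [LinearOrder Ω] (e : K → Ω → ℝ) (α : Ω) {c c' : ℕ → K} {n : ℕ}
    (h : ∀ i ≤ n, c' i = c i) (hc : Ok e α c n) : Ok e α c' n := by
  unfold Ok at hc ⊢
  rw [Gen_part_congr e α n fun i hi => h i hi.le, h n le_rfl]
  exact hc

/-- module NK-Gen -/
theorem generic {Ω K : Type} [LinearOrder Ω] [TopologicalSpace K] [DiscreteTopology K] (e : K → Ω → ℝ) (α : Ω)
    (S : Set (ℕ → K)) (hS : ¬ IsMeagre S) (G : ℕ → Set (Ω → ℝ))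
    (hG : ∀ (k : ℕ) (c : ℕ → K) (m : ℕ), ∃ j, e j ∈ G k ∧ (∀ v, |e j v| ≤ 1) ∧
      ∀ v, e j v ≠ 0 → α ≤ v ∧ part e α c m v = 0) :
    ∃ c ∈ S, ∀ k, ∃ n, Ok e α c n ∧ e (c n) ∈ G k := by
  by_contra hcon
  apply hS
  set D : ℕ → Set (ℕ → K) := fun k => {c | ∃ n, Ok e α c n ∧ e (c n) ∈ G k} with hD
  have hopen : ∀ k, IsOpen (D k) := by
    intro k
    rw [isOpen_pi_iff]
    rintro c ⟨n, hn, hg⟩
    refine ⟨Finset.range (n + 1), fun i => {c i}, fun i _ => ⟨isOpen_discrete _, rfl⟩, ?_⟩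
    intro c' hc'
    have h : ∀ i ≤ n, c' i = c i := fun i hi =>
      hc' i (Finset.mem_coe.2 (Finset.mem_range.2 (Nat.lt_succ_of_le hi)))
    exact ⟨n, Gen_ok_congr e α h hn, by rw [h n le_rfl]; exact hg⟩
  have hdense : ∀ k, Dense (D k) := by
    intro k
    rw [dense_iff_inter_open]
    rintro U hU ⟨c, hc⟩
    obtain ⟨I, u, hu, hsub⟩ := isOpen_pi_iff.1 hU c hc
    set m : ℕ := I.sup id + 1 with hm
    obtain ⟨j, hj1, hj2, hj3⟩ := hG k c m
    have hagree : ∀ i < m, Function.update c m j i = c i := fun i hi =>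
      Function.update_of_ne hi.ne _ _
    refine ⟨Function.update c m j, hsub ?_, m, ?_, ?_⟩
    · intro i hi
      have h1 : i ≤ I.sup id := Finset.le_sup (f := id) (Finset.mem_coe.1 hi)
      rw [hagree i (by omega)]
      exact (hu i hi).2
    · unfold Ok
      rw [Gen_part_congr e α m hagree, Function.update_self]
      exact ⟨hj2, hj3⟩
    · rw [Function.update_self]
      exact hj1
  have hres : (⋂ k, D k) ∈ residual (ℕ → K) :=
    countable_iInter_mem.2 fun k => residual_of_dense_open (hopen k) (hdense k)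
  unfold IsMeagre
  refine Filter.mem_of_superset hres ?_
  intro c hc hcS
  exact hcon ⟨c, hcS, fun k => Set.mem_iInter.1 hc k⟩

end Pool.Agent.Helper55.NK
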