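import Pool.Agent.Helper55.NK.Play
import Pool.Agent.Helper55.NK.Gen
import Pool.Agent.Helper55.NK.Om
import Pool.Agent.Helper55.NK.Card
set_option autoImplicit false

/-!
Project NK (MP_9385b8_an): construction of a rich group of cardinality at most `#K` from a nonmeagre subset
of the Baire space of cardinality at most `#K`, if `#K` countable subsets of `K` are cofinal.
-/

namespace Pool.Agent.Helper55.NK.Cof

open Pool.Agent.Helper55.NK

/-- The sum of the elements `± F i` coded by a list. -/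
private def Card_sum {G ι : Type} [AddCommGroup G] (F : ι → G) (l : List (ι × Bool)) : G :=
  (l.map fun p => if p.2 then F p.1 else -F p.1).sum

private theorem Card_cl {G ι : Type} [AddCommGroup G] (F : ι → G) :
    ((AddSubgroup.closure (Set.range F) : AddSubgroup G) : Set G) ⊆ Set.range (Card_sum F) := by
  intro x hx
  have hx' : x ∈ AddSubgroup.closure (Set.range F) := hx
  induction hx' using AddSubgroup.closure_induction with
  | mem y hy =>
    obtain ⟨i, rfl⟩ := hy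
    exact ⟨[(i, true)], by simp [Card_sum]⟩
  | zero => exact ⟨[], by simp [Card_sum]⟩
  | add y z hy hz h1 h2 =>
    obtain ⟨l, rfl⟩ := h1 hy
    obtain ⟨m, rfl⟩ := h2 hz
    exact ⟨l ++ m, by simp [Card_sum]⟩
  | neg y hy h1 =>
    obtain ⟨l, rfl⟩ := h1 hy
    refine ⟨l.map fun p => (p.1, !p.2), ?_⟩
    clear h1 hy hx
    induction l with
    | nil => simp [Card_sum]
    | cons p l ih =>
      simp only [Card_sum, List.map_cons, List.sum_cons] at ih ⊢
      rw [ih, neg_add]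
      congr 1
      obtain ⟨i, b⟩ := p
      cases b <;> simp

theorem closure_countable {G : Type} [AddCommGroup G] (A : Set G) (hA : A.Countable) :
    ((AddSubgroup.closure A : AddSubgroup G) : Set G).Countable := by
  have : Countable A := hA
  have h1 : Set.range (fun a : A => (a : G)) = A := Subtype.range_coe
  have h2 := Card_cl (fun a : A => (a : G))
  rw [h1] at h2
  exact (Set.countable_range _).mono h2

section

variable {Ω K : Type} [LinearOrder Ω]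

/-- the indicator of a point -/
noncomputable def unit (v : Ω) : Ω → ℝ := fun w => open Classical in if w = v then (1 : ℝ) else 0

theorem unit_ne {v w : Ω} (h : unit v w ≠ 0) : w = v := by
  by_contra hne
  exact h (if_neg hne)

theorem unit_abs (v w : Ω) : |unit v w| ≤ 1 := by
  unfold unit
  split_ifs <;> simp

/-- an enumeration of the group generated by a countable set -/
theorem exists_enum (A : Set (Ω → ℝ)) (hA : A.Countable) :
    ∃ e : ℕ → Ω → ℝ, Set.range e = (AddSubgroup.closure A : Set (Ω → ℝ)) := by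
  have h1 := closure_countable A hA
  obtain ⟨e, he⟩ := h1.exists_eq_range ⟨0, (AddSubgroup.closure A).zero_mem⟩
  exact ⟨e, he.symm⟩

/-- the enumeration, defined for all sets -/
noncomputable def enum (A : Set (Ω → ℝ)) : ℕ → Ω → ℝ := open Classical in
  if h : A.Countable then (exists_enum A h).choose else 0

theorem enum_range (A : Set (Ω → ℝ)) (hA : A.Countable) :
    Set.range (enum A) = (AddSubgroup.closure A : Set (Ω → ℝ)) := by
  unfold enum
  rw [dif_pos hA]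
  exact (exists_enum A hA).choose_spec

variable {S : Set (ℕ → ℕ)}

/-- the generators for the pair `(γ, i)` -/
def gens (C : K → Set (Ω × K × S × Ω)) (γ : Ω) (F : ∀ γ', γ' < γ → K → S → Ω → Ω → ℝ) (i : K) :
    Set (Ω → ℝ) :=
  {f | ∃ (γ' : Ω) (h : γ' < γ) (i' : K) (c' : S) (α' : Ω),
    (γ', i', c', α') ∈ C i ∧ F γ' h i' c' α' = f} ∪ {f | ∃ v, v < γ ∧ unit v = f}

theorem gens_countable (hΩ : IsOmega1 Ω) (C : K → Set (Ω × K × S × Ω)) (hC1 : ∀ i, (C i).Countable)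
    (γ : Ω) (F : ∀ γ', γ' < γ → K → S → Ω → Ω → ℝ) (i : K) : (gens C γ F i).Countable := by
  refine Set.Countable.union ?_ ?_
  · have h1 : {f | ∃ (γ' : Ω) (h : γ' < γ) (i' : K) (c' : S) (α' : Ω),
        (γ', i', c', α') ∈ C i ∧ F γ' h i' c' α' = f} ⊆
        (fun n : Ω × K × S × Ω => open Classical in
          if h : n.1 < γ then F n.1 h n.2.1 n.2.2.1 n.2.2.2 else 0) '' C i := by
      rintro f ⟨γ', h, i', c', α', hm, rfl⟩
      exact ⟨_, hm, dif_pos h⟩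
    exact ((hC1 i).image _).mono h1
  · have h1 : {f : Ω → ℝ | ∃ v, v < γ ∧ unit v = f} ⊆ unit '' Set.Iio γ := by
      rintro f ⟨v, hv, rfl⟩
      exact ⟨v, hv, rfl⟩
    exact ((hΩ.iio γ).image _).mono h1

theorem exists_F (hΩ : IsOmega1 Ω) (C : K → Set (Ω × K × S × Ω)) (hC1 : ∀ i, (C i).Countable) :
    ∃ F : Ω → K → S → Ω → Ω → ℝ, ∀ γ i, ∃ e : ℕ → Ω → ℝ,
      Set.range e = (AddSubgroup.closure (gens C γ (fun γ' _ => F γ') i) : Set (Ω → ℝ)) ∧
      ∀ c α, F γ i c α = play e α c := by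
  refine ⟨hΩ.wf.fix (fun γ F i c α => play (enum (gens C γ F i)) α c), fun γ i => ?_⟩
  refine ⟨_, enum_range _ (gens_countable hΩ C hC1 γ _ i), fun c α => ?_⟩
  rw [WellFounded.fix_eq]

theorem closure_prop (A : Set (Ω → ℝ)) (b : Ω) (hA : ∀ f ∈ A, ∀ v, f v ≠ 0 → v < b) :
    ∀ f ∈ AddSubgroup.closure A, ∀ v, f v ≠ 0 → v < b := by
  intro f hf
  induction hf using AddSubgroup.closure_induction with
  | mem y hy => exact hA y hy
  | zero => exact fun v hv => absurd rfl hv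
  | add y z _ _ h1 h2 =>
    intro v hv
    by_cases hy : y v = 0
    · refine h2 v fun hz => hv ?_
      rw [Pi.add_apply, hy, hz, add_zero]
    · exact h1 v hy
  | neg y _ h1 =>
    intro v hv
    refine h1 v fun hy => hv ?_
    rw [Pi.neg_apply, hy, neg_zero]

theorem closure_prop2 (A : Set (Ω → ℝ)) (α γ : Ω) (hα : α < γ)
    (hA : ∀ f ∈ A, ∃ b < γ, ∀ v, f v ≠ 0 → v < b) :
    ∀ f ∈ AddSubgroup.closure A, ∃ b < γ, ∀ v, f v ≠ 0 → v < b := by
  intro f hf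
  induction hf using AddSubgroup.closure_induction with
  | mem y hy => exact hA y hy
  | zero => exact ⟨α, hα, fun v hv => absurd rfl hv⟩
  | add y z _ _ h1 h2 =>
    obtain ⟨b, hb, hb'⟩ := h1
    obtain ⟨d, hd, hd'⟩ := h2
    refine ⟨max b d, max_lt hb hd, fun v hv => ?_⟩
    by_cases hy : y v = 0
    · refine lt_of_lt_of_le (hd' v fun hz => hv ?_) (le_max_right _ _)
      rw [Pi.add_apply, hy, hz, add_zero]
    · exact lt_of_lt_of_le (hb' v hy) (le_max_left _ _)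
  | neg y _ h1 =>
    obtain ⟨b, hb, hb'⟩ := h1
    refine ⟨b, hb, fun v hv => hb' v fun hy => hv ?_⟩
    rw [Pi.neg_apply, hy, neg_zero]

theorem closure_bd (A : Set (Ω → ℝ)) (hA : ∀ f ∈ A, ∃ C : ℝ, ∀ v, |f v| ≤ C) :
    ∀ f ∈ AddSubgroup.closure A, ∃ C : ℝ, ∀ v, |f v| ≤ C := by
  intro f hf
  induction hf using AddSubgroup.closure_induction with
  | mem y hy => exact hA y hy
  | zero => exact ⟨0, fun v => by simp⟩
  | add y z _ _ h1 h2 =>
    obtain ⟨b, hb⟩ := h1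
    obtain ⟨d, hd⟩ := h2
    exact ⟨b + d, fun v => (abs_add_le _ _).trans (add_le_add (hb v) (hd v))⟩
  | neg y _ h1 =>
    obtain ⟨b, hb⟩ := h1
    exact ⟨b, fun v => by rw [Pi.neg_apply, abs_neg]; exact hb v⟩

theorem F_supp (hΩ : IsOmega1 Ω) (C : K → Set (Ω × K × S × Ω)) (F : Ω → K → S → Ω → Ω → ℝ)
    (hF : ∀ γ i, ∃ e : ℕ → Ω → ℝ,
      Set.range e = (AddSubgroup.closure (gens C γ (fun γ' _ => F γ') i) : Set (Ω → ℝ)) ∧
      ∀ c α, F γ i c α = play e α c) (γ : Ω) :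
    ∀ i c α v, F γ i c α v ≠ 0 → v < γ := by
  induction γ using hΩ.wf.induction with
  | _ γ ih =>
    intro i c α v hv
    obtain ⟨e, he, hp⟩ := hF γ i
    rw [hp] at hv
    obtain ⟨n, hn⟩ := ((play_spec e α c).2.1 v hv).2
    have hm : e n ∈ (AddSubgroup.closure (gens C γ (fun γ' _ => F γ') i) : Set (Ω → ℝ)) :=
      he ▸ Set.mem_range_self n
    refine closure_prop _ γ ?_ (e n) hm v hn
    rintro f (⟨γ', h, i', c', α', _, rfl⟩ | ⟨w, hw, rfl⟩) u hu
    · exact (ih γ' h i' c' α' u hu).trans h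
    · rw [unit_ne hu]
      exact hw

/-- finitely many generators suffice -/
theorem mem_closure_finite {ι : Type} (E : ι → Ω → ℝ) (f : Ω → ℝ)
    (hf : f ∈ AddSubgroup.closure (Set.range E)) :
    ∃ T : Set ι, T.Countable ∧ f ∈ AddSubgroup.closure (E '' T) := by
  induction hf using AddSubgroup.closure_induction with
  | mem y hy =>
    obtain ⟨j, rfl⟩ := hy
    exact ⟨{j}, Set.countable_singleton j, AddSubgroup.subset_closure ⟨j, rfl, rfl⟩⟩
  | zero => exact ⟨∅, Set.countable_empty, AddSubgroup.zero_mem _⟩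
  | add y z _ _ h1 h2 =>
    obtain ⟨T, hT, h3⟩ := h1
    obtain ⟨U, hU, h4⟩ := h2
    refine ⟨T ∪ U, hT.union hU, AddSubgroup.add_mem _ ?_ ?_⟩
    · exact AddSubgroup.closure_mono (Set.image_mono Set.subset_union_left) h3
    · exact AddSubgroup.closure_mono (Set.image_mono Set.subset_union_right) h4
  | neg y _ h1 =>
    obtain ⟨T, hT, h3⟩ := h1
    exact ⟨T, hT, AddSubgroup.neg_mem _ h3⟩

/-- bounds for finitely many elements -/
theorem finite_bound (e : ℕ → Ω → ℝ) (α γ : Ω) (hα : α < γ)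
    (he : ∀ n, ∃ b < γ, ∀ v, e n v ≠ 0 → v < b) (c : ℕ → ℕ) (m : ℕ) :
    ∃ b < γ, α ≤ b ∧ ∀ i < m, ∀ v, e (c i) v ≠ 0 → v < b := by
  induction m with
  | zero => exact ⟨α, hα, le_rfl, fun i hi => absurd hi (Nat.not_lt_zero i)⟩
  | succ m ih =>
    obtain ⟨b, hb, hb1, hb2⟩ := ih
    obtain ⟨d, hd, hd1⟩ := he (c m)
    refine ⟨max b d, max_lt hb hd, hb1.trans (le_max_left _ _), fun i hi v hv => ?_⟩
    rcases Nat.lt_succ_iff_lt_or_eq.1 hi with h | h
    · exact lt_of_lt_of_le (hb2 i h v hv) (le_max_left _ _)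
    · rw [h] at hv
      exact lt_of_lt_of_le (hd1 v hv) (le_max_right _ _)

/-- the generators -/
noncomputable def Egen (F : Ω → K → S → Ω → Ω → ℝ) : (Ω × K × S × Ω) ⊕ Ω → Ω → ℝ :=
  Sum.elim (fun n => F n.1 n.2.1 n.2.2.1 n.2.2.2) unit

/-- the height of a generator -/
def hgt : (Ω × K × S × Ω) ⊕ Ω → Ω := Sum.elim (fun n => n.1) id

theorem rich_part (hΩ : IsOmega1 Ω) (hS : ¬ IsMeagre S) (C : K → Set (Ω × K × S × Ω))
    (hC1 : ∀ i, (C i).Countable) (hC2 : ∀ T : Set (Ω × K × S × Ω), T.Countable → ∃ i, T ⊆ C i)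
    (F : Ω → K → S → Ω → Ω → ℝ)
    (hF : ∀ γ i, ∃ e : ℕ → Ω → ℝ,
      Set.range e = (AddSubgroup.closure (gens C γ (fun γ' _ => F γ') i) : Set (Ω → ℝ)) ∧
      ∀ c α, F γ i c α = play e α c)
    (G : ℕ → Set (Ω → ℝ)) (hGY : ∀ k, ∀ g ∈ G k, g ∈ AddSubgroup.closure (Set.range (Egen F)))
    (hGc : ∀ k b, ∃ g ∈ G k, (∀ v, |g v| ≤ 1) ∧ ∀ v, g v ≠ 0 → b ≤ v) (α : Ω) :
    ∃ y ∈ AddSubgroup.closure (Set.range (Egen F)), (∀ v, |y v| ≤ 1) ∧ (∀ v, y v ≠ 0 → α ≤ v) ∧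
      ∀ k, ∃ g ∈ G k, (∀ v, |g v| ≤ 1) ∧ ∀ v, g v ≠ 0 → y v = g v := by
  have h1 : ∀ k b, ∃ (g : Ω → ℝ) (T : Set ((Ω × K × S × Ω) ⊕ Ω)), g ∈ G k ∧ (∀ v, |g v| ≤ 1) ∧
      (∀ v, g v ≠ 0 → b ≤ v) ∧ T.Countable ∧ g ∈ AddSubgroup.closure (Egen F '' T) := by
    intro k b
    obtain ⟨g, hg, hg1, hg2⟩ := hGc k b
    obtain ⟨T, hT1, hT2⟩ := mem_closure_finite (Egen F) g (hGY k g hg)
    exact ⟨g, T, hg, hg1, hg2, hT1, hT2⟩
  choose g T hg1 hg2 hg3 hT1 hT2 using h1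
  have h2 : ∀ b, ∃ d, b < d ∧ ∀ k, ∀ j ∈ T k b, hgt j < d := by
    intro b
    obtain ⟨d, hd⟩ := hΩ.bdd ({b} ∪ ⋃ k, hgt '' T k b)
      ((Set.countable_singleton b).union (Set.countable_iUnion fun k => (hT1 k b).image _))
    exact ⟨d, hd b (Or.inl rfl), fun k j hj =>
      hd _ (Or.inr (Set.mem_iUnion.2 ⟨k, Set.mem_image_of_mem _ hj⟩))⟩
  choose h hh1 hh2 using h2
  obtain ⟨γ, hγ1, hγ2⟩ := closing hΩ h α
  obtain ⟨i, hi⟩ := hC2 (⋃ k, ⋃ b ∈ Set.Iio γ, Sum.inl ⁻¹' (T k b))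
    (Set.countable_iUnion fun k => (hΩ.iio γ).biUnion fun b _ =>
      (hT1 k b).preimage_of_injOn Sum.inl_injective.injOn)
  obtain ⟨e, he, hp⟩ := hF γ i
  have h3 : ∀ k, ∀ b < γ, g k b ∈ Set.range e := by
    intro k b hb
    rw [he]
    refine AddSubgroup.closure_mono ?_ (hT2 k b)
    rintro _ ⟨j, hj, rfl⟩
    have hj1 := (hh2 b k j hj).trans (hγ2 b hb)
    rcases j with n | v
    · refine Or.inl ⟨n.1, hj1, n.2.1, n.2.2.1, n.2.2.2, hi ?_, rfl⟩
      exact Set.mem_iUnion.2 ⟨k, Set.mem_iUnion.2 ⟨b, Set.mem_iUnion.2 ⟨hb, hj⟩⟩⟩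
    · exact Or.inr ⟨v, hj1, rfl⟩
  have h4 : ∀ n, ∃ b < γ, ∀ v, e n v ≠ 0 → v < b := by
    intro n
    have hm : e n ∈ (AddSubgroup.closure (gens C γ (fun γ' _ => F γ') i) : Set (Ω → ℝ)) :=
      he ▸ Set.mem_range_self n
    refine closure_prop2 _ α γ hγ1 ?_ (e n) hm
    rintro f (⟨γ', h', i', c', α', _, rfl⟩ | ⟨w, hw, rfl⟩)
    · exact ⟨γ', h', F_supp hΩ C F hF γ' i' c' α'⟩
    · refine ⟨h w, hγ2 w hw, fun v hv => ?_⟩
      rw [unit_ne hv]
      exact hh1 w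
  obtain ⟨c, hc, hcG⟩ := generic e α S hS G (by
    intro k c m
    obtain ⟨b, hb, hb1, hb2⟩ := finite_bound e α γ hγ1 h4 c m
    obtain ⟨j, hj⟩ := h3 k b hb
    refine ⟨j, hj ▸ hg1 k b, hj ▸ hg2 k b, fun v hv => ?_⟩
    rw [hj] at hv
    have hbv := hg3 k b v hv
    refine ⟨hb1.trans hbv, ?_⟩
    by_contra hpart
    obtain ⟨l, hl, hl2⟩ := (play_spec e α c).2.2.2 m v hpart
    exact absurd (hb2 l hl v hl2) (not_lt.2 hbv))
  refine ⟨F γ i ⟨c, hc⟩ α, AddSubgroup.subset_closure ⟨Sum.inl (γ, i, ⟨c, hc⟩, α), rfl⟩, ?_⟩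
  rw [hp]
  obtain ⟨p1, p2, p3, _⟩ := play_spec e α c
  refine ⟨p1, fun v hv => (p2 v hv).1, fun k => ?_⟩
  obtain ⟨n, hn1, hn2⟩ := hcG k
  exact ⟨e (c n), hn2, hn1.1, p3 n hn1⟩

theorem exists_rich_names (hΩ : IsOmega1 Ω) (hS : ¬ IsMeagre S)
    (hK : Cardinal.aleph 1 ≤ Cardinal.mk K) (hc : Cardinal.mk S ≤ Cardinal.mk K)
    (C : K → Set (Ω × K × S × Ω)) (hC1 : ∀ i, (C i).Countable)
    (hC2 : ∀ T : Set (Ω × K × S × Ω), T.Countable → ∃ i, T ⊆ C i) :
    ∃ Y : AddSubgroup (Ω → ℝ), Rich Ω Y ∧ Cardinal.mk Y ≤ Cardinal.mk K := by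
  obtain ⟨F, hF⟩ := exists_F hΩ C hC1
  have h0 : Cardinal.aleph0 ≤ Cardinal.mk K := (Cardinal.aleph0_le_aleph 1).trans hK
  have hs := F_supp hΩ C F hF
  have hO : Cardinal.mk Ω ≤ Cardinal.mk K := by
    rw [hΩ.card]
    exact hK
  refine ⟨AddSubgroup.closure (Set.range (Egen F)), ⟨?_, ?_, ?_, ?_⟩,
    mk_closure_le _ h0 ?_ _⟩
  · intro y hy
    obtain ⟨T, hT1, hT2⟩ := mem_closure_finite (Egen F) y hy
    obtain ⟨b, hb⟩ := hΩ.bdd (hgt '' T) (hT1.image _)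
    refine ⟨b, closure_prop _ b ?_ y hT2⟩
    rintro _ ⟨j, hj, rfl⟩ v hv
    have hj1 := hb _ (Set.mem_image_of_mem _ hj)
    rcases j with n | w
    · exact (hs n.1 n.2.1 n.2.2.1 n.2.2.2 v hv).trans hj1
    · have : v = w := unit_ne hv
      rw [this]
      exact hj1
  · refine closure_bd _ ?_
    rintro _ ⟨j, rfl⟩
    refine ⟨1, fun v => ?_⟩
    rcases j with n | w
    · obtain ⟨e, _, hp⟩ := hF n.1 n.2.1
      have h5 : Egen F (Sum.inl n) = play e n.2.2.2 n.2.2.1 := hp _ _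
      rw [h5]
      exact (play_spec _ _ _).1 v
    · exact unit_abs w v
  · intro v
    exact AddSubgroup.subset_closure ⟨Sum.inr v, rfl⟩
  · intro G hG1 hG2 α
    exact rich_part hΩ hS C hC1 hC2 F hF G hG1 hG2 α
  · simp only [Cardinal.mk_prod, Cardinal.mk_sum, Cardinal.lift_id]
    refine (add_le_add ?_ hO).trans (Cardinal.add_eq_self h0).le
    refine (mul_le_mul' hO ((mul_le_mul' le_rfl ((mul_le_mul' hc hO).trans
      (Cardinal.mul_eq_self h0).le)).trans (Cardinal.mul_eq_self h0).le)).trans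
      (Cardinal.mul_eq_self h0).le

end

end Pool.Agent.Helper55.NK.Cof

namespace Pool.Agent.Helper55.NK

/-- A rich group of cardinality at most `#K`, if the Baire space has a nonmeagre subset of cardinality at most
`#K` and `#K` countable subsets of `K` are cofinal. -/
theorem exists_rich_cof {Ω K : Type} [LinearOrder Ω] (hΩ : IsOmega1 Ω)
    (hK : Cardinal.aleph 1 ≤ Cardinal.mk K) (S : Set (ℕ → ℕ)) (hS : ¬ IsMeagre S)
    (hc : Cardinal.mk S ≤ Cardinal.mk K) (C : K → Set K) (hC1 : ∀ i, (C i).Countable)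
    (hC2 : ∀ T : Set K, T.Countable → ∃ i, T ⊆ C i) :
    ∃ Y : AddSubgroup (Ω → ℝ), Rich Ω Y ∧ Cardinal.mk Y ≤ Cardinal.mk K := by
  have h0 : Cardinal.aleph0 ≤ Cardinal.mk K := (Cardinal.aleph0_le_aleph 1).trans hK
  have hO : Cardinal.mk Ω ≤ Cardinal.mk K := by
    rw [hΩ.card]
    exact hK
  have hN : Cardinal.mk (Ω × K × S × Ω) ≤ Cardinal.mk K := by
    simp only [Cardinal.mk_prod, Cardinal.lift_id]
    exact (mul_le_mul' hO ((mul_le_mul' le_rfl ((mul_le_mul' hc hO).trans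
      (Cardinal.mul_eq_self h0).le)).trans (Cardinal.mul_eq_self h0).le)).trans
      (Cardinal.mul_eq_self h0).le
  obtain ⟨j⟩ := (Cardinal.le_def _ _).1 hN
  refine Cof.exists_rich_names hΩ hS hK hc (fun i => j ⁻¹' C i)
    (fun i => (hC1 i).preimage_of_injOn j.injective.injOn) fun T hT => ?_
  obtain ⟨i, hi⟩ := hC2 (j '' T) (hT.image _)
  exact ⟨i, fun t ht => hi (Set.mem_image_of_mem _ ht)⟩

end Pool.Agent.Helper55.NK
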