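import Mathlib
set_option autoImplicit false

/-!
Project NK (MP_9385b8_an): `ℵ_n` countable subsets of a set of cardinality `ℵ_n` are cofinal.
-/

namespace Pool.Agent.Helper55.NK

/-- Every set of cardinality `κ` has `κ` countable subsets which are cofinal for inclusion among all its
countable subsets. -/
def Cofam (κ : Cardinal.{0}) : Prop :=
  ∀ K : Type, Cardinal.mk K = κ → ∃ C : K → Set K, (∀ i, (C i).Countable) ∧
    ∀ T : Set K, T.Countable → ∃ i, T ⊆ C i

theorem cofam_zero : Cofam Cardinal.aleph0 := by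
  intro K hK
  have h1 : Countable K := Cardinal.mk_le_aleph0_iff.1 hK.le
  have h2 : Infinite K := Cardinal.infinite_iff.2 hK.ge
  obtain ⟨k⟩ : Nonempty K := inferInstance
  exact ⟨fun _ => Set.univ, fun _ => Set.countable_univ, fun T _ => ⟨k, Set.subset_univ T⟩⟩

theorem cofam_succ (κ : Cardinal.{0}) (hκ : Cardinal.aleph0 ≤ κ) (h : Cofam κ) :
    Cofam (Order.succ κ) := by
  intro K hK
  obtain ⟨r, wo, hr⟩ := Cardinal.exists_ord_eq K
  have hseg : ∀ x : K, Cardinal.mk {y // r y x} ≤ κ := by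
    intro x
    have h1 := Cardinal.card_typein_lt (r := r) x hr
    rw [hK, Ordinal.card_typein] at h1
    exact Order.lt_succ_iff.1 h1
  obtain ⟨C0, hC1, hC2⟩ := h κ.out (Cardinal.mk_out κ)
  have hemb : ∀ x : K, Nonempty ({y // r y x} ↪ κ.out) := by
    intro x
    rw [← Cardinal.le_def, Cardinal.mk_out]
    exact hseg x
  let j : ∀ x : K, {y // r y x} ↪ κ.out := fun x => (hemb x).some
  let D : K × κ.out → Set K := fun p => {y | ∃ hy : r y p.1, j p.1 ⟨y, hy⟩ ∈ C0 p.2}
  have hD1 : ∀ p, (D p).Countable := by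
    intro p
    have h1 : (j p.1 ⁻¹' C0 p.2).Countable := (hC1 p.2).preimage_of_injOn (j p.1).injective.injOn
    refine (h1.image Subtype.val).mono ?_
    rintro y ⟨hy, hy2⟩
    exact ⟨⟨y, hy⟩, hy2, rfl⟩
  have hbd : ∀ T : Set K, T.Countable → ∃ x, ∀ t ∈ T, r t x := by
    intro T hT
    by_contra hcon
    push Not at hcon
    have h1 : (Set.univ : Set K) ⊆ ⋃ t : T, {y | ¬ r t y} := by
      intro x _
      obtain ⟨t, ht, h2⟩ := hcon x
      exact Set.mem_iUnion.2 ⟨⟨t, ht⟩, h2⟩
    have h3 : ∀ t : T, Cardinal.mk {y | ¬ r t y} ≤ κ := by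
      intro t
      have h4 : {y | ¬ r t y} ⊆ insert (t : K) {y | r y t} := by
        intro y hy
        rcases trichotomous_of r (t : K) y with h5 | h5 | h5
        · exact absurd h5 hy
        · exact Or.inl h5.symm
        · exact Or.inr h5
      refine (Cardinal.mk_le_mk_of_subset h4).trans ?_
      refine (Cardinal.mk_insert_le).trans ?_
      exact (add_le_add (hseg t) (Cardinal.one_le_aleph0.trans hκ)).trans
        (Cardinal.add_eq_self hκ).le
    have h6 : Cardinal.mk K ≤ κ := by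
      rw [← Cardinal.mk_univ]
      refine (Cardinal.mk_le_mk_of_subset h1).trans ?_
      refine (Cardinal.mk_iUnion_le _).trans ?_
      have h7 : Cardinal.mk T ≤ κ := (Cardinal.le_aleph0_iff_set_countable.2 hT).trans hκ
      exact (mul_le_mul' h7 (ciSup_le' h3)).trans (Cardinal.mul_eq_self hκ).le
    rw [hK] at h6
    exact absurd h6 (not_le.2 (Order.lt_succ κ))
  have hD2 : ∀ T : Set K, T.Countable → ∃ p, T ⊆ D p := by
    intro T hT
    obtain ⟨x, hx⟩ := hbd T hT
    obtain ⟨i, hi⟩ := hC2 (j x '' (Subtype.val ⁻¹' T))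
      ((hT.preimage_of_injOn Subtype.val_injective.injOn).image _)
    exact ⟨(x, i), fun t ht => ⟨hx t ht, hi ⟨⟨t, hx t ht⟩, ht, rfl⟩⟩⟩
  have hcard : Cardinal.mk (K × κ.out) = Cardinal.mk K := by
    rw [Cardinal.mk_prod, Cardinal.lift_id, Cardinal.lift_id, Cardinal.mk_out, hK]
    exact Cardinal.mul_eq_left (hκ.trans (Order.le_succ κ)) (Order.le_succ κ)
      (ne_of_gt (Cardinal.aleph0_pos.trans_le hκ))
  obtain ⟨e⟩ := Cardinal.eq.1 hcard
  refine ⟨fun i => D (e.symm i), fun i => hD1 _, fun T hT => ?_⟩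
  obtain ⟨p, hp⟩ := hD2 T hT
  exact ⟨e p, by simpa using hp⟩

theorem cofam_aleph (n : ℕ) : Cofam (Cardinal.aleph n) := by
  induction n with
  | zero =>
    rw [Nat.cast_zero, Cardinal.aleph_zero]
    exact cofam_zero
  | succ n ih =>
    have h1 : Cardinal.aleph ((n + 1 : ℕ) : Ordinal) = Order.succ (Cardinal.aleph n) := by
      rw [Cardinal.succ_aleph, Nat.cast_succ]
    rw [h1]
    exact cofam_succ _ (Cardinal.aleph0_le_aleph _) ih

end Pool.Agent.Helper55.NK
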