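import Pool.Agent.Helper55.NK.Wit
set_option autoImplicit false

/-!
Project NK (MP_9385b8_an): if `K` is an uncountable discrete space and the Baire space `ℕ → K` has a nonmeagre
subset of cardinality at most `#K`, then some Banach space of density `#K` has 2-separated sequences of unit
vectors in all its renormings.
-/

namespace Pool.Agent.Helper55.NK

/-- Partial sums of the play coded by `c` in the list `e`, above `α`: at time `n` the function `e (c n)` is added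
if it is bounded by `1`, supported in `[α, ∞)`, and its support is disjoint from the support of what is there. -/
noncomputable def part {Ω K : Type} [LinearOrder Ω] (e : K → Ω → ℝ) (α : Ω) (c : ℕ → K) : ℕ → Ω → ℝ
  | 0 => 0
  | n + 1 => open Classical in
      if (∀ v, |e (c n) v| ≤ 1) ∧ (∀ v, e (c n) v ≠ 0 → α ≤ v ∧ part e α c n v = 0)
      then part e α c n + e (c n) else part e α c n

/-- The function `e (c n)` is added at time `n`. -/
def Ok {Ω K : Type} [LinearOrder Ω] (e : K → Ω → ℝ) (α : Ω) (c : ℕ → K) (n : ℕ) : Prop :=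
  (∀ v, |e (c n) v| ≤ 1) ∧ (∀ v, e (c n) v ≠ 0 → α ≤ v ∧ part e α c n v = 0)

/-- The union of the play. -/
noncomputable def play {Ω K : Type} [LinearOrder Ω] (e : K → Ω → ℝ) (α : Ω) (c : ℕ → K) : Ω → ℝ := fun v =>
  open Classical in if h : ∃ n, part e α c n v ≠ 0 then part e α c (Nat.find h) v else 0

/-- `Ω` is a copy of the ordinal `ω₁`. -/
structure IsOmega1 (Ω : Type) [LinearOrder Ω] : Prop where
  wf : WellFounded ((· < ·) : Ω → Ω → Prop)
  bdd : ∀ A : Set Ω, A.Countable → ∃ b, ∀ a ∈ A, a < b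
  iio : ∀ a : Ω, (Set.Iio a).Countable
  card : Cardinal.mk Ω = Cardinal.aleph 1

/-- The rich groups of functions on `Ω`. -/
structure Rich (Ω : Type) [LinearOrder Ω] (Y : AddSubgroup (Ω → ℝ)) : Prop where
  supp : ∀ y ∈ Y, ∃ b, ∀ v, y v ≠ 0 → v < b
  bd : ∀ y ∈ Y, ∃ C : ℝ, ∀ v, |y v| ≤ C
  one : ∀ v : Ω, (fun w => open Classical in if w = v then (1 : ℝ) else 0) ∈ Y
  rich : ∀ G : ℕ → Set (Ω → ℝ), (∀ k, ∀ g ∈ G k, g ∈ Y) →
    (∀ k b, ∃ g ∈ G k, (∀ v, |g v| ≤ 1) ∧ ∀ v, g v ≠ 0 → b ≤ v) →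
    ∀ α, ∃ y ∈ Y, (∀ v, |y v| ≤ 1) ∧ (∀ v, y v ≠ 0 → α ≤ v) ∧
      ∀ k, ∃ g ∈ G k, (∀ v, |g v| ≤ 1) ∧ ∀ v, g v ≠ 0 → y v = g v

end Pool.Agent.Helper55.NK
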