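import Mathlib

/-!
# From sets of reals to sets of sequences

`Real_g y = 1 / 2 + arctan y / π` maps `ℝ` onto `(0, 1)`, `Real_psi n y = a_n + Real_g y` (`a_n` the integer number `n`),
`Real_T x = tan (π (fract x - 1 / 2))` is the inverse of all `Real_psi n`; `Real_phi x k` is the number of the integer
`⌊T^k x⌋`. The sets `Real_Psi f m '' univ` are open, of diameter at most `2 ^ (1 - m)`, and are mapped by `Real_phi` into
the cylinders.
-/

set_option autoImplicit false

namespace Pool.Agent.Helper55.NK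

open Set Topology

/-- `ℝ → (0, 1)` -/
noncomputable def Real_g (y : ℝ) : ℝ := 1 / 2 + Real.arctan y / Real.pi

/-- branches -/
noncomputable def Real_psi (n : ℕ) (y : ℝ) : ℝ := ((Equiv.intEquivNat.symm n : ℤ) : ℝ) + Real_g y

/-- the common left inverse of the branches -/
noncomputable def Real_T (x : ℝ) : ℝ := Real.tan (Real.pi * (Int.fract x - 1 / 2))

/-- the coding -/
noncomputable def Real_phi (x : ℝ) (k : ℕ) : ℕ := Equiv.intEquivNat ⌊Real_T^[k] x⌋

/-- compositions of branches -/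
noncomputable def Real_Psi (f : ℕ → ℕ) : ℕ → ℝ → ℝ
  | 0, y => y
  | m + 1, y => Real_Psi f m (Real_psi (f m) y)

theorem Real_g_mem (y : ℝ) : 0 < Real_g y ∧ Real_g y < 1 := by
  have hpi := Real.pi_pos
  have h1 := Real.neg_pi_div_two_lt_arctan y
  have h2 := Real.arctan_lt_pi_div_two y
  unfold Real_g
  constructor
  · have : -(1 / 2) < Real.arctan y / Real.pi := by
      rw [lt_div_iff₀ hpi]
      linarith
    linarith
  · have : Real.arctan y / Real.pi < 1 / 2 := by
      rw [div_lt_iff₀ hpi]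
      linarith
    linarith

theorem Real_floor_psi (n : ℕ) (y : ℝ) : ⌊Real_psi n y⌋ = Equiv.intEquivNat.symm n := by
  have h := Real_g_mem y
  rw [Int.floor_eq_iff]
  unfold Real_psi
  constructor <;> linarith

theorem Real_T_psi (n : ℕ) (y : ℝ) : Real_T (Real_psi n y) = y := by
  have hpi := Real.pi_pos.ne'
  have h1 : Int.fract (Real_psi n y) = Real_g y := by
    rw [Int.fract, Real_floor_psi]
    unfold Real_psi
    ring
  unfold Real_T
  rw [h1]
  have h2 : Real.pi * (Real_g y - 1 / 2) = Real.arctan y := by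
    unfold Real_g
    field_simp
    ring
  rw [h2, Real.tan_arctan]

theorem Real_psi_T {x : ℝ} (hx : x ∉ Set.range ((↑) : ℤ → ℝ)) :
    Real_psi (Equiv.intEquivNat ⌊x⌋) (Real_T x) = x := by
  have hpi := Real.pi_pos
  have h0 : 0 < Int.fract x := by
    rcases (Int.fract_nonneg x).lt_or_eq with h | h
    · exact h
    · exfalso
      apply hx
      refine ⟨⌊x⌋, ?_⟩
      have := Int.floor_add_fract x
      linarith
  have h1 := Int.fract_lt_one x
  have h2 : Real.arctan (Real_T x) = Real.pi * (Int.fract x - 1 / 2) := by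
    unfold Real_T
    apply Real.arctan_tan
    · nlinarith
    · nlinarith
  unfold Real_psi Real_g
  rw [h2, Equiv.symm_apply_apply]
  have h3 : Real.pi * (Int.fract x - 1 / 2) / Real.pi = Int.fract x - 1 / 2 := by
    field_simp
  rw [h3]
  have := Int.floor_add_fract x
  linarith

theorem Real_psi_lip (n : ℕ) (y z : ℝ) : |Real_psi n y - Real_psi n z| ≤ 1 / 2 * |y - z| := by
  have hpi := Real.pi_gt_three
  have h1 : LipschitzWith 1 Real.arctan := by
    refine lipschitzWith_of_nnnorm_deriv_le Real.differentiable_arctan (fun x => ?_)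
    rw [Real.deriv_arctan, ← NNReal.coe_le_coe, coe_nnnorm, NNReal.coe_one, Real.norm_eq_abs,
      abs_of_nonneg (by positivity)]
    rw [div_le_one (by positivity)]
    nlinarith [sq_nonneg x]
  have h2 : |Real.arctan y - Real.arctan z| ≤ |y - z| := by
    have := h1.dist_le_mul y z
    simpa [Real.dist_eq] using this
  have h3 : Real_psi n y - Real_psi n z = (Real.arctan y - Real.arctan z) / Real.pi := by
    unfold Real_psi Real_g
    ring
  rw [h3, abs_div, abs_of_pos Real.pi_pos, div_le_iff₀ Real.pi_pos]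
  nlinarith [abs_nonneg (y - z)]

theorem Real_psi_one (n : ℕ) (y z : ℝ) : |Real_psi n y - Real_psi n z| ≤ 1 := by
  have h1 := Real_g_mem y
  have h2 := Real_g_mem z
  have h3 : Real_psi n y - Real_psi n z = Real_g y - Real_g z := by
    unfold Real_psi
    ring
  rw [h3, abs_le]
  constructor <;> linarith

theorem Real_psi_open (n : ℕ) : IsOpenMap (Real_psi n) := by
  refine isOpenMap_of_hasStrictDerivAt (f' := fun x => 1 / (1 + x ^ 2) / Real.pi) (fun x => ?_)
    (fun x => ?_)
  · exact (((Real.hasStrictDerivAt_arctan x).div_const Real.pi).const_add (1 / 2)).const_add _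
  · have := Real.pi_pos
    positivity

theorem Real_Psi_open (f : ℕ → ℕ) (m : ℕ) : IsOpenMap (Real_Psi f m) := by
  induction m with
  | zero => exact IsOpenMap.id
  | succ m ih => exact ih.comp (Real_psi_open (f m))

theorem Real_Psi_lip (f : ℕ → ℕ) (m : ℕ) (y z : ℝ) :
    |Real_Psi f m y - Real_Psi f m z| ≤ (1 / 2) ^ m * |y - z| := by
  induction m generalizing y z with
  | zero => simp [Real_Psi]
  | succ m ih =>
    calc |Real_Psi f (m + 1) y - Real_Psi f (m + 1) z|
        = |Real_Psi f m (Real_psi (f m) y) - Real_Psi f m (Real_psi (f m) z)| := rfl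
      _ ≤ (1 / 2) ^ m * |Real_psi (f m) y - Real_psi (f m) z| := ih _ _
      _ ≤ (1 / 2) ^ m * (1 / 2 * |y - z|) :=
          mul_le_mul_of_nonneg_left (Real_psi_lip _ _ _) (by positivity)
      _ = (1 / 2) ^ (m + 1) * |y - z| := by ring

theorem Real_Psi_diam (f : ℕ → ℕ) (m : ℕ) (y z : ℝ) :
    |Real_Psi f (m + 1) y - Real_Psi f (m + 1) z| ≤ (1 / 2) ^ m := by
  calc |Real_Psi f (m + 1) y - Real_Psi f (m + 1) z|
      = |Real_Psi f m (Real_psi (f m) y) - Real_Psi f m (Real_psi (f m) z)| := rfl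
    _ ≤ (1 / 2) ^ m * |Real_psi (f m) y - Real_psi (f m) z| := Real_Psi_lip _ _ _ _
    _ ≤ (1 / 2) ^ m * 1 := mul_le_mul_of_nonneg_left (Real_psi_one _ _ _) (by positivity)
    _ = (1 / 2) ^ m := mul_one _

theorem Real_Psi_congr {f g : ℕ → ℕ} (m : ℕ) (h : ∀ i, i < m → f i = g i) (y : ℝ) :
    Real_Psi f m y = Real_Psi g m y := by
  induction m generalizing y with
  | zero => rfl
  | succ m ih =>
    show Real_Psi f m (Real_psi (f m) y) = Real_Psi g m (Real_psi (g m) y)
    rw [h m (Nat.lt_succ_self m)]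
    exact ih (fun i hi => h i (Nat.lt_succ_of_lt hi)) _

theorem Real_Psi_range (f : ℕ → ℕ) {n m : ℕ} (h : n ≤ m) (y : ℝ) :
    ∃ z, Real_Psi f m y = Real_Psi f n z := by
  induction m, h using Nat.le_induction generalizing y with
  | base => exact ⟨y, rfl⟩
  | succ m _ ih => exact ih (Real_psi (f m) y)

theorem Real_phi_Psi (f : ℕ → ℕ) (m : ℕ) (y : ℝ) :
    Real_T^[m] (Real_Psi f m y) = y ∧ ∀ i, i < m → Real_phi (Real_Psi f m y) i = f i := by
  induction m generalizing y with
  | zero => exact ⟨rfl, fun i hi => absurd hi (Nat.not_lt_zero i)⟩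
  | succ m ih =>
    obtain ⟨h1, h2⟩ := ih (Real_psi (f m) y)
    have h3 : Real_Psi f (m + 1) y = Real_Psi f m (Real_psi (f m) y) := rfl
    rw [h3]
    refine ⟨?_, fun i hi => ?_⟩
    · rw [Function.iterate_succ', Function.comp_apply, h1, Real_T_psi]
    · rcases Nat.lt_succ_iff_lt_or_eq.1 hi with h4 | h4
      · exact h2 i h4
      · rw [h4]
        unfold Real_phi
        rw [h1, Real_floor_psi, Equiv.apply_symm_apply]

theorem Real_T_countable {C : Set ℝ} (hC : C.Countable) : (Real_T ⁻¹' C).Countable := by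
  have h1 : Real_T ⁻¹' C ⊆ Set.range ((↑) : ℤ → ℝ) ∪ ⋃ n : ℕ, Real_psi n '' C := by
    intro x hx
    by_cases h : x ∈ Set.range ((↑) : ℤ → ℝ)
    · exact Or.inl h
    · right
      exact Set.mem_iUnion.2 ⟨_, _, hx, Real_psi_T h⟩
  exact ((Set.countable_range _).union (Set.countable_iUnion fun n => hC.image _)).mono h1

theorem Real_bad_countable (k : ℕ) : {x | Real_T^[k] x ∈ Set.range ((↑) : ℤ → ℝ)}.Countable := by
  induction k with
  | zero => exact Set.countable_range _
  | succ k ih => exact Real_T_countable ih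

theorem Real_Psi_phi {x : ℝ} (hx : ∀ k, Real_T^[k] x ∉ Set.range ((↑) : ℤ → ℝ)) (k : ℕ) :
    Real_Psi (Real_phi x) k (Real_T^[k] x) = x := by
  induction k with
  | zero => rfl
  | succ k ih =>
    show Real_Psi (Real_phi x) k (Real_psi (Real_phi x k) (Real_T^[k + 1] x)) = x
    rw [Function.iterate_succ', Function.comp_apply]
    have h1 : Real_psi (Real_phi x k) (Real_T (Real_T^[k] x)) = Real_T^[k] x := Real_psi_T (hx k)
    rw [h1, ih]

/-- Every nonempty open set contains the image of a composition of branches. -/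
theorem Real_exists {V : Set ℝ} (hV : IsOpen V) (hne : V.Nonempty) :
    ∃ (f : ℕ → ℕ) (m : ℕ), ∀ y, Real_Psi f m y ∈ V := by
  have hc : (⋃ k : ℕ, {x | Real_T^[k] x ∈ Set.range ((↑) : ℤ → ℝ)}).Countable :=
    Set.countable_iUnion Real_bad_countable
  have hd := hc.dense_compl ℝ
  obtain ⟨x, hxV, hx⟩ := hd.inter_open_nonempty V hV hne
  have hx' : ∀ k, Real_T^[k] x ∉ Set.range ((↑) : ℤ → ℝ) := by
    intro k hk
    exact hx (Set.mem_iUnion.2 ⟨k, hk⟩)
  obtain ⟨ε, hε, hball⟩ := Metric.isOpen_iff.1 hV x hxV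
  obtain ⟨k, hk⟩ := exists_pow_lt_of_lt_one hε (by norm_num : (1 / 2 : ℝ) < 1)
  refine ⟨Real_phi x, k + 1, fun y => hball ?_⟩
  rw [Metric.mem_ball, Real.dist_eq]
  conv_lhs => rw [← Real_Psi_phi hx' (k + 1)]
  refine lt_of_le_of_lt ?_ hk
  have h1 := Real_Psi_phi hx' (k + 1)
  rw [h1]
  have h2 := Real_Psi_diam (Real_phi x) k y (Real_T^[k + 1] x)
  rw [h1] at h2
  exact h2

theorem Real_nowhereDense {A : Set (ℕ → ℕ)} (hA : IsNowhereDense A) :
    IsNowhereDense (Real_phi ⁻¹' A) := by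
  by_contra hne
  have hne' : (interior (closure (Real_phi ⁻¹' A))).Nonempty := Set.nonempty_iff_ne_empty.2 hne
  obtain ⟨f, m, hfm⟩ := Real_exists isOpen_interior hne'
  obtain ⟨g, hg1, hg2⟩ : ∃ g ∈ PiNat.cylinder f m, g ∉ closure A := by
    by_contra hcon
    push Not at hcon
    have h1 : PiNat.cylinder f m ⊆ interior (closure A) :=
      interior_maximal hcon (PiNat.isOpen_cylinder _ f m)
    rw [hA] at h1
    exact h1 (PiNat.self_mem_cylinder f m)
  obtain ⟨n, hn⟩ := PiNat.exists_disjoint_cylinder isClosed_closure hg2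
  have hW : IsOpen (Set.range (Real_Psi g (max n m))) := (Real_Psi_open g (max n m)).isOpen_range
  have hsub : Set.range (Real_Psi g (max n m)) ⊆ closure (Real_phi ⁻¹' A) := by
    rintro _ ⟨y, rfl⟩
    obtain ⟨z, hz⟩ := Real_Psi_range g (le_max_right n m) y
    rw [hz, Real_Psi_congr m (fun i hi => hg1 i hi)]
    exact interior_subset (hfm z)
  obtain ⟨x, ⟨y, rfl⟩, hx⟩ := mem_closure_iff.1 (hsub ⟨0, rfl⟩) _ hW ⟨0, rfl⟩
  have h2 : Real_phi (Real_Psi g (max n m) y) ∈ PiNat.cylinder g n := by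
    intro i hi
    exact (Real_phi_Psi g (max n m) y).2 i (lt_of_lt_of_le hi (le_max_left n m))
  exact Set.disjoint_left.1 hn (subset_closure hx) h2

theorem Real_meagre {A : Set (ℕ → ℕ)} (hA : IsMeagre A) : IsMeagre (Real_phi ⁻¹' A) := by
  obtain ⟨S, h1, h2, h3⟩ := isMeagre_iff_countable_union_isNowhereDense.1 hA
  refine isMeagre_iff_countable_union_isNowhereDense.2
    ⟨(fun t => Real_phi ⁻¹' t) '' S, ?_, h2.image _, ?_⟩
  · rintro _ ⟨t, ht, rfl⟩
    exact Real_nowhereDense (h1 t ht)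
  · intro x hx
    obtain ⟨t, ht, hxt⟩ := h3 hx
    exact ⟨_, ⟨t, ht, rfl⟩, hxt⟩

theorem exists_baire' (S : Set ℝ) (hS : ¬ IsMeagre S) :
    ∃ S2 : Set (ℕ → ℕ), ¬ IsMeagre S2 ∧ Cardinal.mk S2 ≤ Cardinal.mk S := by
  refine ⟨Real_phi '' S, fun h => hS ?_, Cardinal.mk_image_le⟩
  exact (Real_meagre h).mono (Set.subset_preimage_image _ _)

end Pool.Agent.Helper55.NK
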