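import Pool.Agent.Helper55.NK.Cof
import Pool.Agent.Helper55.NK.CofN
import Pool.Agent.Helper55.NK.Ban
import Pool.Agent.Helper55.NK.Om
import Pool.Agent.Helper55.NK.Real
set_option autoImplicit false

namespace Pool.Agent.Helper55.NK

theorem witness_cof (K : Type) (C : K → Set K) (S : Set ℝ) (hK : Cardinal.aleph 1 ≤ Cardinal.mk K)
    (hC1 : ∀ i, (C i).Countable) (hC2 : ∀ A : Set K, A.Countable → ∃ i, A ⊆ C i)
    (hS : ¬ IsMeagre S) (hc : Cardinal.mk S ≤ Cardinal.mk K) : Witness (Cardinal.mk K) := by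
  obtain ⟨S2, h1, h2⟩ := exists_baire' S hS
  obtain ⟨Ω, _, hΩ⟩ := exists_omega1
  obtain ⟨Y, hY, hY2⟩ := exists_rich_cof hΩ hK S2 h1 (h2.trans hc) C hC1 hC2
  exact banach_part hΩ Y hY K hK hY2

theorem final (K : Type)
    (hK : (∃ n : ℕ, Cardinal.mk K = Cardinal.aleph (n + 1)) ∨
      (Cardinal.aleph 1 ≤ Cardinal.mk K ∧ ∃ C : K → Set K, (∀ i, (C i).Countable) ∧
        ∀ A : Set K, A.Countable → ∃ i, A ⊆ C i))
    (S : Set ℝ) (hS : ¬ IsMeagre S) (hc : Cardinal.mk S ≤ Cardinal.mk K) : Witness (Cardinal.mk K) := by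
  rcases hK with ⟨n, hn⟩ | ⟨hK, C, hC1, hC2⟩
  · obtain ⟨C, hC1, hC2⟩ := cofam_aleph (n + 1) K (by rw [hn]; norm_cast)
    refine witness_cof K C S ?_ hC1 hC2 hS hc
    rw [hn]
    refine Cardinal.aleph_le_aleph.mpr ?_
    exact_mod_cast Nat.le_add_left 1 n
  · exact witness_cof K C S hK hC1 hC2 hS hc

end Pool.Agent.Helper55.NK
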