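import Pool.Agent.Helper55.NK.Defs
set_option autoImplicit false

/-!
Project NK: elementary properties of the play.
-/

namespace Pool.Agent.Helper55.NK

private theorem part_succ_of_ok {Ω K : Type} [LinearOrder Ω] (e : K → Ω → ℝ) (α : Ω) (c : ℕ → K)
    {n : ℕ} (h : Ok e α c n) (v : Ω) : part e α c (n + 1) v = part e α c n v + e (c n) v := by
  have h1 : part e α c (n + 1) = part e α c n + e (c n) := if_pos h
  rw [h1]
  rfl

private theorem part_succ_of_not {Ω K : Type} [LinearOrder Ω] (e : K → Ω → ℝ) (α : Ω) (c : ℕ → K)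
    {n : ℕ} (h : ¬ Ok e α c n) : part e α c (n + 1) = part e α c n := if_neg h

private theorem part_spec {Ω K : Type} [LinearOrder Ω] (e : K → Ω → ℝ) (α : Ω) (c : ℕ → K) (n : ℕ)
    (v : Ω) (h : part e α c n v ≠ 0) :
    ∃ i < n, Ok e α c i ∧ e (c i) v ≠ 0 ∧ part e α c n v = e (c i) v := by
  induction n with
  | zero => exact absurd rfl h
  | succ n ih =>
    by_cases hn : Ok e α c n
    · rw [part_succ_of_ok e α c hn] at h ⊢
      by_cases he : e (c n) v = 0
      · rw [he, add_zero] at h ⊢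
        obtain ⟨i, hi, h1, h2, h3⟩ := ih h
        exact ⟨i, by omega, h1, h2, h3⟩
      · have h0 : part e α c n v = 0 := (hn.2 v he).2
        exact ⟨n, by omega, hn, he, by rw [h0, zero_add]⟩
    · rw [part_succ_of_not e α c hn] at h ⊢
      obtain ⟨i, hi, h1, h2, h3⟩ := ih h
      exact ⟨i, by omega, h1, h2, h3⟩

private theorem part_stay {Ω K : Type} [LinearOrder Ω] (e : K → Ω → ℝ) (α : Ω) (c : ℕ → K) (n : ℕ)
    (v : Ω) (h : part e α c n v ≠ 0) (m : ℕ) : part e α c (n + m) v = part e α c n v := by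
  induction m with
  | zero => rfl
  | succ m ih =>
    rw [← Nat.add_assoc]
    by_cases hn : Ok e α c (n + m)
    · rw [part_succ_of_ok e α c hn, ih]
      have he : e (c (n + m)) v = 0 := by
        by_contra he
        have h0 := (hn.2 v he).2
        rw [ih] at h0
        exact h h0
      rw [he, add_zero]
    · rw [part_succ_of_not e α c hn, ih]

private theorem play_eq {Ω K : Type} [LinearOrder Ω] (e : K → Ω → ℝ) (α : Ω) (c : ℕ → K) (n : ℕ)
    (v : Ω) (h : part e α c n v ≠ 0) : play e α c v = part e α c n v := by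
  classical
  have hex : ∃ n, part e α c n v ≠ 0 := ⟨n, h⟩
  obtain ⟨k, hk1, hk2⟩ : ∃ k, part e α c k v ≠ 0 ∧ play e α c v = part e α c k v ∧ k ≤ n := by
    refine ⟨_, Nat.find_spec hex, ?_, Nat.find_min' hex h⟩
    unfold play
    rw [dif_pos hex]
  obtain ⟨m, rfl⟩ := Nat.exists_eq_add_of_le hk2.2
  rw [hk2.1, part_stay e α c k v hk1 m]

theorem play_spec {Ω K : Type} [LinearOrder Ω] (e : K → Ω → ℝ) (α : Ω) (c : ℕ → K) :
    (∀ v, |play e α c v| ≤ 1) ∧
    (∀ v, play e α c v ≠ 0 → α ≤ v ∧ ∃ n, e n v ≠ 0) ∧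
    (∀ n, Ok e α c n → ∀ v, e (c n) v ≠ 0 → play e α c v = e (c n) v) ∧
    (∀ n v, part e α c n v ≠ 0 → ∃ i < n, e (c i) v ≠ 0) := by
  have key : ∀ v, play e α c v ≠ 0 → ∃ i, Ok e α c i ∧ e (c i) v ≠ 0 ∧ play e α c v = e (c i) v := by
    intro v hv
    by_cases hex : ∃ n, part e α c n v ≠ 0
    · obtain ⟨n, hn⟩ := hex
      obtain ⟨i, _, h1, h2, h3⟩ := part_spec e α c n v hn
      exact ⟨i, h1, h2, by rw [play_eq e α c n v hn, h3]⟩
    · exfalso
      apply hv
      unfold play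
      rw [dif_neg hex]
  refine ⟨fun v => ?_, fun v hv => ?_, fun n hn v hv => ?_, fun n v hv => ?_⟩
  · by_cases hv : play e α c v = 0
    · rw [hv, abs_zero]
      exact zero_le_one
    · obtain ⟨i, h1, _, h3⟩ := key v hv
      rw [h3]
      exact h1.1 v
  · obtain ⟨i, h1, h2, _⟩ := key v hv
    exact ⟨(h1.2 v h2).1, c i, h2⟩
  · have h1 : part e α c (n + 1) v = e (c n) v := by
      rw [part_succ_of_ok e α c hn, (hn.2 v hv).2, zero_add]
    rw [play_eq e α c (n + 1) v (by rw [h1]; exact hv), h1]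
  · obtain ⟨i, hi, _, h2, _⟩ := part_spec e α c n v hv
    exact ⟨i, hi, h2⟩

end Pool.Agent.Helper55.NK
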