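import Mathlib
set_option autoImplicit false

namespace Pool.Agent.Helper55.NK

/-- There is a real Banach space of density character `κ` such that every normed space isomorphic to it has
a sequence of unit vectors at pairwise distances at least `2`. -/
def Witness (κ : Cardinal.{0}) : Prop :=
  ∃ (X : Type) (_ : NormedAddCommGroup X) (_ : NormedSpace ℝ X) (_ : CompleteSpace X),
    ((∃ D : Set X, Dense D ∧ Cardinal.mk D = κ) ∧ ∀ D : Set X, Dense D → κ ≤ Cardinal.mk D) ∧
    ∀ (Z : Type) (_ : NormedAddCommGroup Z) (_ : NormedSpace ℝ Z) (_ : X ≃L[ℝ] Z),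
      ∃ f : ℕ → Z, (∀ n, ‖f n‖ = 1) ∧ ∀ n m, n ≠ m → 2 ≤ ‖f n - f m‖

end Pool.Agent.Helper55.NK
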